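import Pool.Agent.W2helper70.GI.Seq

set_option autoImplicit false

/-!
Large gaps among prescribed sets of indices.
-/

namespace Pool.Agent.W2helper70.GI

open MeasureTheory ProbabilityTheory Finset Filter
open scoped ENNReal
open Pool.Agent.W2helper70.CG

theorem ev_rpow {τ : ℝ} (hτ : 0 < τ) (K : ℝ) :
    ∀ᶠ n : ℕ in atTop, K * Real.log n ≤ (n : ℝ) ^ τ := by
  have h1 : Tendsto (fun n : ℕ => Real.log n / (n : ℝ) ^ τ) atTop (nhds 0) :=
    ((isLittleO_log_rpow_atTop hτ).tendsto_div_nhds_zero).comp tendsto_natCast_atTop_atTop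
  have h2 : ∀ᶠ n : ℕ in atTop, Real.log n / (n : ℝ) ^ τ < 1 / (|K| + 1) :=
    h1.eventually (gt_mem_nhds (by positivity))
  filter_upwards [h2, eventually_ge_atTop 1] with n hn hn1
  have hn0 : (0 : ℝ) < n := by exact_mod_cast hn1
  have h3 : 0 < (n : ℝ) ^ τ := by positivity
  have hl : 0 ≤ Real.log n := Real.log_natCast_nonneg n
  rw [div_lt_div_iff₀ h3 (by positivity), one_mul] at hn
  have h4 : K ≤ |K| := le_abs_self K
  nlinarith

theorem families {κ : ℝ} (hκ : 0 < κ) {M : ℕ} (hM0 : 0 < M) (A B : ℕ) {τ : ℝ} (hτ : 0 < τ) (I : ℕ → ℕ → Finset ℕ) :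
    ∀ᵐ ω ∂(law κ), ∀ᶠ n : ℕ in atTop, ∀ t : ℕ, (t : ℝ) < Real.exp ((n : ℝ) ^ (τ / 3)) →
      (∀ j ∈ I n t, n ≤ j ^ A ∧ j ≤ n ^ B) → (n : ℝ) ^ τ ≤ (I n t).card →
      ∃ j ∈ I n t, τ / (4 * κ * (A + 1)) * Real.log n ^ 2 ≤ gap M ω j := by
  classical
  set c : ℝ := τ / (4 * κ * (A + 1)) with hc
  set X : ℕ → ℕ := fun n => n ^ (2 * (B + 1) + 1) with hX
  set Bad : ℕ → Set Om := fun n => (⋃ t ∈ range ⌈Real.exp ((n : ℝ) ^ (τ / 3))⌉₊,
    {ω | ((∀ j ∈ I n t, n ≤ j ^ A ∧ j ≤ n ^ B) ∧ (n : ℝ) ^ τ ≤ (I n t).card) ∧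
      ∀ j ∈ (I n t).image (fun j => j - 1), Sm M ⌊c * Real.log n ^ 2⌋₊ j ω} ∩ Qe M (n ^ (B + 1)) (X n)) ∪
      (Qe M (n ^ (B + 1)) (X n))ᶜ with hBad
  have hb : ∀ᶠ n : ℕ in atTop, law κ (Bad n) ≤ ENNReal.ofReal (3 / (n : ℝ) ^ 2) := by
    filter_upwards [q_small hκ hM0 (B := B + 1) (by omega), ev_log 1, ev_log (2 * κ * (A + 1)),
      eventually_gt_atTop ((2 ^ (A + 1)) ^ A), eventually_ge_atTop 3, ev_rpow (τ := τ / 3) (by positivity) 3,
      ev_rpow (τ := τ / 6) (by positivity) 3] with n h1 h2 h3 h4 h5 h6 h7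
    obtain ⟨l, hl⟩ : ∃ l : ℝ, l = Real.log n := ⟨_, rfl⟩
    rw [← hl] at h2 h3 h6 h7
    have hl0 : 0 < l := by linarith
    have hn0 : (0 : ℝ) < n := by exact_mod_cast (by omega : 0 < n)
    have hexpl : Real.exp l = n := by rw [hl, Real.exp_log hn0]
    have hex : ∃ i, n ≤ i ^ (A + 1) := ⟨n, Nat.le_self_pow (by omega) n⟩
    set i := Nat.find hex with hi
    have hi1 : n ≤ i ^ (A + 1) := Nat.find_spec hex
    have hi0 : 0 < i := by
      rcases Nat.eq_zero_or_pos i with h | h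
      · rw [h] at hi1
        simp at hi1
        omega
      · exact h
    have hlogi : l / (A + 1) ≤ Real.log i := by
      have h8 : Real.log n ≤ Real.log ((i : ℝ) ^ (A + 1)) := Real.log_le_log hn0 (by exact_mod_cast hi1)
      rw [Real.log_pow, ← hl] at h8
      rw [div_le_iff₀ (by positivity)]
      push_cast at h8
      linarith
    have hone : ∀ t, law κ ({ω | ((∀ j ∈ I n t, n ≤ j ^ A ∧ j ≤ n ^ B) ∧ (n : ℝ) ^ τ ≤ (I n t).card) ∧
        ∀ j ∈ (I n t).image (fun j => j - 1), Sm M ⌊c * Real.log n ^ 2⌋₊ j ω} ∩ Qe M (n ^ (B + 1)) (X n)) ≤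
        ENNReal.ofReal (Real.exp (-((n : ℝ) ^ (τ / 2)))) := by
      intro t
      by_cases hco : (∀ j ∈ I n t, n ≤ j ^ A ∧ j ≤ n ^ B) ∧ (n : ℝ) ^ τ ≤ (I n t).card
      · have hpos : ∀ j ∈ I n t, 0 < j := by
          intro j hj
          have h8 := pred_pow h4 (hco.1 j hj).1
          rcases Nat.eq_zero_or_pos j with h | h
          · rw [h] at h8
            simp at h8
            omega
          · exact h
        have hinj : Set.InjOn (fun j => j - 1) (I n t : Set ℕ) := by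
          intro j hj j' hj' h
          have h1 := hpos j hj
          have h2 := hpos j' hj'
          have h3 : j - 1 = j' - 1 := h
          omega
        have hg2 : (⌊c * Real.log n ^ 2⌋₊ : ℝ) ≤ c * l ^ 2 := by
          rw [hl]
          exact Nat.floor_le (by positivity)
        refine (measure_mono (Set.inter_subset_inter_left _ fun ω hω => hω.2)).trans
          ((low_core hκ.le (M := M) (g := ⌊c * Real.log n ^ 2⌋₊) (i := i) (X := X n) (b := n ^ (B + 1))
          (a := κ * (A + 1) / l) (y := τ / 2 * l) (by positivity) ?_ (fun j hj => ?_) ?_ _ ?_ ?_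
          (N := (n : ℝ) ^ τ) ?_).trans ?_)
        · rw [div_le_iff₀ hl0]
          linarith
        · have h11 : Real.log i ≤ Real.log j := Real.log_le_log (by exact_mod_cast hi0) (by exact_mod_cast hj.le)
          have h12 := rho_le_of hκ.le (j := j) (y := l / (A + 1)) (by positivity) (hlogi.trans h11)
          rwa [div_div_eq_mul_div] at h12
        · calc 2 * (κ * (A + 1) / l) * (⌊c * Real.log n ^ 2⌋₊ : ℝ) ≤ 2 * (κ * (A + 1) / l) * (c * l ^ 2) := by gcongr
            _ = τ / 2 * l := by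
                rw [hc]
                field_simp
                ring
        · intro j hj
          obtain ⟨j', hj', rfl⟩ := mem_image.1 hj
          exact Nat.find_min' hex (pred_pow h4 (hco.1 j' hj').1)
        · intro j hj
          obtain ⟨j', hj', rfl⟩ := mem_image.1 hj
          have h8 := (hco.1 j' hj').2
          have h9 := hpos j' hj'
          calc j' - 1 + 1 = j' := by omega
            _ ≤ n ^ B := h8
            _ ≤ n ^ (B + 1) := Nat.pow_le_pow_right (by omega) (by omega)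
        · rw [card_image_of_injOn hinj]
          exact hco.2
        · refine ENNReal.ofReal_le_ofReal (Real.exp_le_exp.2 (neg_le_neg (le_of_eq ?_)))
          have h8 : Real.exp (-(τ / 2 * l)) = (n : ℝ) ^ (-(τ / 2)) := by
            rw [Real.rpow_def_of_pos hn0, ← hl]
            congr 1
            ring
          rw [h8, ← Real.rpow_add hn0]
          congr 1
          ring
      · rw [show ({ω : Om | ((∀ j ∈ I n t, n ≤ j ^ A ∧ j ≤ n ^ B) ∧ (n : ℝ) ^ τ ≤ (I n t).card) ∧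
          ∀ j ∈ (I n t).image (fun j => j - 1), Sm M ⌊c * Real.log n ^ 2⌋₊ j ω} ∩ Qe M (n ^ (B + 1)) (X n)) = ∅ from
            Set.eq_empty_of_forall_notMem fun ω hω => hco hω.1.1, measure_empty]
        exact zero_le
    have hE : (⌈Real.exp ((n : ℝ) ^ (τ / 3))⌉₊ : ℝ) ≤ 2 * Real.exp ((n : ℝ) ^ (τ / 3)) := by
      have h8 := (Nat.ceil_lt_add_one (Real.exp_pos ((n : ℝ) ^ (τ / 3))).le).le
      have h9 : 1 ≤ Real.exp ((n : ℝ) ^ (τ / 3)) := Real.one_le_exp (by positivity)
      linarith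
    calc law κ (Bad n) ≤ (∑ _t ∈ range ⌈Real.exp ((n : ℝ) ^ (τ / 3))⌉₊,
            ENNReal.ofReal (Real.exp (-((n : ℝ) ^ (τ / 2))))) + ENNReal.ofReal (1 / (n : ℝ) ^ 2) := by
          refine (measure_union_le _ _).trans (add_le_add ?_ h1)
          exact (measure_biUnion_finset_le _ _).trans (sum_le_sum fun t _ => hone t)
      _ = ENNReal.ofReal ((⌈Real.exp ((n : ℝ) ^ (τ / 3))⌉₊ : ℝ) * Real.exp (-((n : ℝ) ^ (τ / 2))) +
            1 / (n : ℝ) ^ 2) := by
          rw [sum_const, card_range, nsmul_eq_mul, ENNReal.ofReal_add (by positivity) (by positivity),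
            ENNReal.ofReal_mul (by positivity)]
          congr 2
          rw [ENNReal.ofReal_natCast]
      _ ≤ ENNReal.ofReal (3 / (n : ℝ) ^ 2) := by
          refine ENNReal.ofReal_le_ofReal ?_
          have h8 : (n : ℝ) ^ (τ / 3) + 2 * l ≤ (n : ℝ) ^ (τ / 2) := by
            have h9 : (n : ℝ) ^ (τ / 2) = (n : ℝ) ^ (τ / 3) * (n : ℝ) ^ (τ / 6) := by
              rw [← Real.rpow_add hn0]
              congr 1
              ring
            rw [h9]
            have h10 : 0 < (n : ℝ) ^ (τ / 3) := by positivity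
            nlinarith
          have h9 : Real.exp ((n : ℝ) ^ (τ / 3)) * Real.exp (-((n : ℝ) ^ (τ / 2))) ≤ 1 / (n : ℝ) ^ 2 := by
            calc Real.exp ((n : ℝ) ^ (τ / 3)) * Real.exp (-((n : ℝ) ^ (τ / 2))) ≤ Real.exp (-(2 * l)) := by
                  rw [← Real.exp_add]
                  exact Real.exp_le_exp.2 (by linarith)
              _ = 1 / (n : ℝ) ^ 2 := by
                  rw [Real.exp_neg, one_div, ← hexpl, ← Real.exp_nat_mul]
                  norm_num
          calc (⌈Real.exp ((n : ℝ) ^ (τ / 3))⌉₊ : ℝ) * Real.exp (-((n : ℝ) ^ (τ / 2))) + 1 / (n : ℝ) ^ 2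
              ≤ 2 * Real.exp ((n : ℝ) ^ (τ / 3)) * Real.exp (-((n : ℝ) ^ (τ / 2))) + 1 / (n : ℝ) ^ 2 := by gcongr
            _ = 2 * (Real.exp ((n : ℝ) ^ (τ / 3)) * Real.exp (-((n : ℝ) ^ (τ / 2)))) + 1 / (n : ℝ) ^ 2 := by ring
            _ ≤ 2 * (1 / (n : ℝ) ^ 2) + 1 / (n : ℝ) ^ 2 := by gcongr
            _ = 3 / (n : ℝ) ^ 2 := by ring
  filter_upwards [bc κ hb] with ω hω
  filter_upwards [hω, eventually_gt_atTop ((2 ^ (A + 1)) ^ A), eventually_ge_atTop 1] with n hn h4 h5 t ht hco hcard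
  by_contra hno
  push Not at hno
  apply hn
  by_cases hQ : ω ∈ Qe M (n ^ (B + 1)) (X n)
  · left
    rw [Set.mem_iUnion₂]
    refine ⟨t, mem_range.2 ?_, ⟨⟨hco, hcard⟩, ?_⟩, hQ⟩
    · exact_mod_cast ht.trans_le (Nat.le_ceil _)
    · intro j hj
      obtain ⟨j', hj', rfl⟩ := mem_image.1 hj
      have h8 := pred_pow h4 (hco j' hj').1
      have h9 : 1 ≤ j' := by
        rcases Nat.eq_zero_or_pos j' with h | h
        · rw [h] at h8
          simp at h8
          omega
        · exact h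
      have h10 : j' ≤ n ^ (B + 1) := (hco j' hj').2.trans (Nat.pow_le_pow_right (by omega) (by omega))
      rw [sm_gap h9 (Qe_anti h10 hQ)]
      exact Nat.le_floor (hno j' hj').le
  · right
    exact hQ

end Pool.Agent.W2helper70.GI
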