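import Pool.Agent.W2helper70.GI.Win
import Pool.Agent.W2helper70.GI.Fams

set_option autoImplicit false

/-!
Large gaps among prescribed sets of indices, with the sharp constant.
-/

namespace Pool.Agent.W2helper70.GI

open MeasureTheory ProbabilityTheory Finset Filter
open scoped ENNReal
open Pool.Agent.W2helper70.CG

theorem fam_y {κ A φ m τ ε l g α : ℝ} (hκ : 0 < κ) (hA : 0 < A) (hφ : 0 < φ) (hm : 0 < m) (hτ : 0 < τ) (hε : 0 < ε)
    (hε1 : ε < 1) (hl : 1 ≤ l) (hα : α = κ * A / ((1 - ε / 8) * l)) (h1 : α ≤ ε / 8)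
    (h2 : κ * A * φ ≤ ε / 4 * τ * l) (hg : g ≤ (1 - ε) * τ / A * (m / (κ * φ)) * l ^ 2) :
    α / (1 - α) * (φ * (g / m + 1)) ≤ (1 - ε / 2) * τ * l := by
  have hl0 : 0 < l := by linarith
  have h3 : 0 < 1 - ε / 8 := by linarith
  have hα0 : 0 < α := by rw [hα]; positivity
  have h4 : 0 < 1 - α := by linarith
  have h5 : α * (φ * (g / m + 1)) ≤ ((1 - ε) * τ * l + κ * A * φ / l) / (1 - ε / 8) := by
    calc α * (φ * (g / m + 1)) ≤ α * (φ * (((1 - ε) * τ / A * (m / (κ * φ)) * l ^ 2) / m + 1)) := by gcongr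
      _ = _ := by
        rw [hα]
        field_simp
  have h6 : κ * A * φ / l ≤ ε / 4 * τ * l := by
    have h7 : κ * A * φ / l ≤ κ * A * φ := div_le_self (by positivity) hl
    linarith
  rw [div_mul_eq_mul_div, div_le_iff₀ h4]
  refine h5.trans ?_
  rw [div_le_iff₀ h3]
  have h7 : 0 < (1 - ε / 2) * τ * l := by
    have : 0 < 1 - ε / 2 := by linarith
    positivity
  have h8 : (1 - ε / 2) * τ * l * ((1 - ε / 8) * (1 - ε / 8)) ≤ (1 - ε / 2) * τ * l * ((1 - α) * (1 - ε / 8)) := by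
    refine mul_le_mul_of_nonneg_left ?_ h7.le
    exact mul_le_mul_of_nonneg_right (by linarith) h3.le
  have h9 : (1 - ε / 2) * τ * l * ((1 - ε / 8) * (1 - ε / 8)) =
      (1 - ε) * τ * l + ε / 4 * τ * l + τ * l * (ε ^ 2 * (9 / 64) - ε ^ 3 / 128) := by ring
  have h10 : 0 ≤ τ * l * (ε ^ 2 * (9 / 64) - ε ^ 3 / 128) := by
    have h11 : 0 ≤ ε ^ 2 * (9 / 64) - ε ^ 3 / 128 := by
      have h12 : ε ^ 3 ≤ ε ^ 2 * 1 := by
        rw [pow_succ]
        exact mul_le_mul_of_nonneg_left hε1.le (by positivity)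
      have h13 : 0 ≤ ε ^ 2 := by positivity
      linarith
    positivity
  rw [mul_assoc ((1 - ε / 2) * τ * l) (1 - α) (1 - ε / 8)]
  linarith

theorem pred_pow' {A n j : ℕ} (h4 : 1 < n) (h : n ≤ j ^ A) : 1 ≤ j - 1 ∧ n ≤ (2 * (j - 1)) ^ A := by
  have h1 : 2 ≤ j := by
    by_contra hc
    have h2 : j ≤ 1 := by omega
    have h3 : j ^ A ≤ 1 ^ A := Nat.pow_le_pow_left h2 A
    rw [one_pow] at h3
    omega
  exact ⟨by omega, h.trans (Nat.pow_le_pow_left (by omega) A)⟩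

theorem families_sharp {κ : ℝ} (hκ : 0 < κ) {M : ℕ} (hM0 : 0 < M) {A : ℕ} (hA : 0 < A) (B : ℕ) {σ τ ε : ℝ}
    (hσ : 0 < σ) (hστ : σ < τ) (hε : 0 < ε) (hε1 : ε < 1) (I : ℕ → ℕ → Finset ℕ) :
    ∀ᵐ ω ∂(law κ), ∀ᶠ n : ℕ in atTop, ∀ t : ℕ, (t : ℝ) < Real.exp ((n : ℝ) ^ σ) →
      (∀ j ∈ I n t, n ≤ j ^ A ∧ j ≤ n ^ B) → (n : ℝ) ^ τ ≤ (I n t).card →
      ∃ j ∈ I n t, (1 - ε) * (τ - σ) / A * (M / (κ * M.totient)) * Real.log n ^ 2 ≤ gap M ω j := by
  classical
  have hMr : (0 : ℝ) < M := by exact_mod_cast hM0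
  have hφr : (0 : ℝ) < M.totient := by exact_mod_cast Nat.totient_pos.2 hM0
  have hAr : (0 : ℝ) < A := by exact_mod_cast hA
  have hδ : 0 < τ - σ := by linarith
  have hε' : 0 < 1 - ε := by linarith
  have hε8 : 0 < 1 - ε / 8 := by linarith
  set c : ℝ := (1 - ε) * (τ - σ) / A * (M / (κ * M.totient)) with hc
  have hc0 : 0 ≤ c := by positivity
  set X : ℕ → ℕ := fun n => n ^ (2 * (B + 1) + 1) with hX
  set Bad : ℕ → Set Om := fun n => (⋃ t ∈ range ⌈Real.exp ((n : ℝ) ^ σ)⌉₊,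
    {ω | ((∀ j ∈ I n t, n ≤ j ^ A ∧ j ≤ n ^ B) ∧ (n : ℝ) ^ τ ≤ (I n t).card) ∧
      ∀ j ∈ (I n t).image (fun j => j - 1), Sm M ⌊c * Real.log n ^ 2⌋₊ j ω} ∩ Qe M (n ^ (B + 1)) (X n)) ∪
      (Qe M (n ^ (B + 1)) (X n))ᶜ with hBad
  obtain ⟨η, hη⟩ : ∃ η : ℝ, η = ε / 2 * (τ - σ) := ⟨_, rfl⟩
  have hη0 : 0 < η := by rw [hη]; positivity
  have hb : ∀ᶠ n : ℕ in atTop, law κ (Bad n) ≤ ENNReal.ofReal (3 / (n : ℝ) ^ 2) := by
    filter_upwards [q_small hκ hM0 (B := B + 1) (by omega), ev_log 1, ev_log (8 * A * Real.log 2 / ε),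
      ev_log (8 * (κ * A) / (ε * (1 - ε / 8))), ev_log (4 * (κ * A * M.totient) / (ε * (τ - σ))),
      eventually_ge_atTop 3, ev_rpow hη0 3] with n h1 h2 h3 h3' h3'' h5 h7
    obtain ⟨l, hl⟩ : ∃ l : ℝ, l = Real.log n := ⟨_, rfl⟩
    rw [← hl] at h2 h3 h3' h3'' h7
    have hl0 : 0 < l := by linarith
    have hn0 : (0 : ℝ) < n := by exact_mod_cast (by omega : 0 < n)
    have hn1 : (1 : ℝ) ≤ n := by exact_mod_cast (by omega : 1 ≤ n)
    have hexpl : Real.exp l = n := by rw [hl, Real.exp_log hn0]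
    have hex : ∃ i, n ≤ (2 * i) ^ A := ⟨n, (Nat.le_self_pow (by omega) n).trans (Nat.pow_le_pow_left (by omega) A)⟩
    set i := Nat.find hex with hi
    have hi1 : n ≤ (2 * i) ^ A := Nat.find_spec hex
    have hi0 : 0 < i := by
      rcases Nat.eq_zero_or_pos i with h | h
      · rw [h, mul_zero, zero_pow hA.ne'] at hi1
        omega
      · exact h
    have hlogi : (1 - ε / 8) * l / A ≤ Real.log i := by
      have h8 : Real.log n ≤ Real.log ((2 * i : ℝ) ^ A) := Real.log_le_log hn0 (by exact_mod_cast hi1)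
      have hir : (0 : ℝ) < i := by exact_mod_cast hi0
      rw [Real.log_pow, Real.log_mul (by norm_num) hir.ne', ← hl] at h8
      rw [div_le_iff₀ hε] at h3
      rw [div_le_iff₀ hAr]
      linarith
    obtain ⟨α, hα⟩ : ∃ α : ℝ, α = κ * A / ((1 - ε / 8) * l) := ⟨_, rfl⟩
    have hα0 : 0 < α := by rw [hα]; positivity
    have hα1 : α ≤ ε / 8 := by
      rw [hα, div_le_iff₀ (by positivity)]
      rw [div_le_iff₀ (by positivity)] at h3'
      linarith
    have h3b : κ * A * M.totient ≤ ε / 4 * (τ - σ) * l := by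
      rw [div_le_iff₀ (by positivity)] at h3''
      linarith
    have hone : ∀ t, law κ ({ω | ((∀ j ∈ I n t, n ≤ j ^ A ∧ j ≤ n ^ B) ∧ (n : ℝ) ^ τ ≤ (I n t).card) ∧
        ∀ j ∈ (I n t).image (fun j => j - 1), Sm M ⌊c * Real.log n ^ 2⌋₊ j ω} ∩ Qe M (n ^ (B + 1)) (X n)) ≤
        ENNReal.ofReal (Real.exp (-((n : ℝ) ^ (σ + η)))) := by
      intro t
      by_cases hco : (∀ j ∈ I n t, n ≤ j ^ A ∧ j ≤ n ^ B) ∧ (n : ℝ) ^ τ ≤ (I n t).card
      · have hpos : ∀ j ∈ I n t, 0 < j := by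
          intro j hj
          have h8 := (pred_pow' (by omega) (hco.1 j hj).1).1
          omega
        have hinj : Set.InjOn (fun j => j - 1) (I n t : Set ℕ) := by
          intro j hj j' hj' h
          have h1 := hpos j hj
          have h2 := hpos j' hj'
          have h3 : j - 1 = j' - 1 := h
          omega
        have hg2 : (⌊c * Real.log n ^ 2⌋₊ : ℝ) ≤ c * l ^ 2 := by
          rw [hl]
          exact Nat.floor_le (by positivity)
        refine (measure_mono (Set.inter_subset_inter_left _ fun ω hω => hω.2)).trans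
          ((low_core' hκ.le hM0 (g := ⌊c * Real.log n ^ 2⌋₊) (i := i) (X := X n) (b := n ^ (B + 1))
          (a := α) (y := (1 - ε / 2) * (τ - σ) * l) hα0.le (by linarith) (fun j hj => ?_) ?_ _ ?_ ?_
          (N := (n : ℝ) ^ τ) ?_).trans ?_)
        · have h11 : Real.log i ≤ Real.log j := Real.log_le_log (by exact_mod_cast hi0) (by exact_mod_cast hj.le)
          have h12 := rho_le_of hκ.le (j := j) (y := (1 - ε / 8) * l / A) (by positivity) (hlogi.trans h11)
          rwa [div_div_eq_mul_div, ← hα] at h12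
        · exact fam_y hκ hAr hφr hMr hδ hε hε1 h2 hα hα1 h3b (by rw [← hc]; exact hg2)
        · intro j hj
          obtain ⟨j', hj', rfl⟩ := mem_image.1 hj
          exact Nat.find_min' hex (pred_pow' (by omega) (hco.1 j' hj').1).2
        · intro j hj
          obtain ⟨j', hj', rfl⟩ := mem_image.1 hj
          have h8 := (hco.1 j' hj').2
          have h9 := hpos j' hj'
          calc j' - 1 + 1 = j' := by omega
            _ ≤ n ^ B := h8
            _ ≤ n ^ (B + 1) := Nat.pow_le_pow_right (by omega) (by omega)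
        · rw [card_image_of_injOn hinj]
          exact hco.2
        · refine ENNReal.ofReal_le_ofReal (Real.exp_le_exp.2 (neg_le_neg (le_of_eq ?_)))
          have h8 : Real.exp (-((1 - ε / 2) * (τ - σ) * l)) = (n : ℝ) ^ (-((1 - ε / 2) * (τ - σ))) := by
            rw [Real.rpow_def_of_pos hn0, ← hl]
            congr 1
            ring
          rw [h8, ← Real.rpow_add hn0]
          congr 1
          rw [hη]
          ring
      · rw [show ({ω : Om | ((∀ j ∈ I n t, n ≤ j ^ A ∧ j ≤ n ^ B) ∧ (n : ℝ) ^ τ ≤ (I n t).card) ∧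
          ∀ j ∈ (I n t).image (fun j => j - 1), Sm M ⌊c * Real.log n ^ 2⌋₊ j ω} ∩ Qe M (n ^ (B + 1)) (X n)) = ∅ from
            Set.eq_empty_of_forall_notMem fun ω hω => hco hω.1.1, measure_empty]
        exact zero_le
    have hE : (⌈Real.exp ((n : ℝ) ^ σ)⌉₊ : ℝ) ≤ 2 * Real.exp ((n : ℝ) ^ σ) := by
      have h8 := (Nat.ceil_lt_add_one (Real.exp_pos ((n : ℝ) ^ σ)).le).le
      have h9 : 1 ≤ Real.exp ((n : ℝ) ^ σ) := Real.one_le_exp (by positivity)
      linarith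
    calc law κ (Bad n) ≤ (∑ _t ∈ range ⌈Real.exp ((n : ℝ) ^ σ)⌉₊,
            ENNReal.ofReal (Real.exp (-((n : ℝ) ^ (σ + η))))) + ENNReal.ofReal (1 / (n : ℝ) ^ 2) := by
          refine (measure_union_le _ _).trans (add_le_add ?_ h1)
          exact (measure_biUnion_finset_le _ _).trans (sum_le_sum fun t _ => hone t)
      _ = ENNReal.ofReal ((⌈Real.exp ((n : ℝ) ^ σ)⌉₊ : ℝ) * Real.exp (-((n : ℝ) ^ (σ + η))) +
            1 / (n : ℝ) ^ 2) := by
          rw [sum_const, card_range, nsmul_eq_mul, ENNReal.ofReal_add (by positivity) (by positivity),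
            ENNReal.ofReal_mul (by positivity)]
          congr 2
          rw [ENNReal.ofReal_natCast]
      _ ≤ ENNReal.ofReal (3 / (n : ℝ) ^ 2) := by
          refine ENNReal.ofReal_le_ofReal ?_
          have h8 : (n : ℝ) ^ σ + 2 * l ≤ (n : ℝ) ^ (σ + η) := by
            rw [Real.rpow_add hn0]
            have h10 : 1 ≤ (n : ℝ) ^ σ := Real.one_le_rpow hn1 hσ.le
            calc (n : ℝ) ^ σ + 2 * l ≤ (n : ℝ) ^ σ * l + 2 * ((n : ℝ) ^ σ * l) := by
                  have e1 : (n : ℝ) ^ σ * 1 ≤ (n : ℝ) ^ σ * l := by gcongr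
                  have e2 : 1 * l ≤ (n : ℝ) ^ σ * l := by gcongr
                  linarith
              _ = (n : ℝ) ^ σ * (3 * l) := by ring
              _ ≤ _ := by gcongr
          have h9 : Real.exp ((n : ℝ) ^ σ) * Real.exp (-((n : ℝ) ^ (σ + η))) ≤ 1 / (n : ℝ) ^ 2 := by
            calc Real.exp ((n : ℝ) ^ σ) * Real.exp (-((n : ℝ) ^ (σ + η))) ≤ Real.exp (-(2 * l)) := by
                  rw [← Real.exp_add]
                  exact Real.exp_le_exp.2 (by linarith)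
              _ = 1 / (n : ℝ) ^ 2 := by
                  rw [Real.exp_neg, one_div, ← hexpl, ← Real.exp_nat_mul]
                  norm_num
          calc (⌈Real.exp ((n : ℝ) ^ σ)⌉₊ : ℝ) * Real.exp (-((n : ℝ) ^ (σ + η))) + 1 / (n : ℝ) ^ 2
              ≤ 2 * Real.exp ((n : ℝ) ^ σ) * Real.exp (-((n : ℝ) ^ (σ + η))) + 1 / (n : ℝ) ^ 2 := by gcongr
            _ = 2 * (Real.exp ((n : ℝ) ^ σ) * Real.exp (-((n : ℝ) ^ (σ + η)))) + 1 / (n : ℝ) ^ 2 := by ring
            _ ≤ 2 * (1 / (n : ℝ) ^ 2) + 1 / (n : ℝ) ^ 2 := by gcongr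
            _ = 3 / (n : ℝ) ^ 2 := by ring
  filter_upwards [bc κ hb] with ω hω
  filter_upwards [hω, eventually_gt_atTop 1] with n hn h4 t ht hco hcard
  by_contra hno
  push Not at hno
  apply hn
  by_cases hQ : ω ∈ Qe M (n ^ (B + 1)) (X n)
  · left
    rw [Set.mem_iUnion₂]
    refine ⟨t, mem_range.2 ?_, ⟨⟨hco, hcard⟩, ?_⟩, hQ⟩
    · exact_mod_cast ht.trans_le (Nat.le_ceil _)
    · intro j hj
      obtain ⟨j', hj', rfl⟩ := mem_image.1 hj
      have h8 := (pred_pow' h4 (hco j' hj').1).1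
      have h9 : 1 ≤ j' := by omega
      have h10 : j' ≤ n ^ (B + 1) := (hco j' hj').2.trans (Nat.pow_le_pow_right (by omega) (by omega))
      rw [sm_gap h9 (Qe_anti h10 hQ)]
      exact Nat.le_floor (hno j' hj').le
  · right
    exact hQ

end Pool.Agent.W2helper70.GI
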