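import Pool.Agent.W2helper70.GI.Seq

set_option autoImplicit false

/-!
The growth exponent of the largest gap along a sequence of indices.
-/

namespace Pool.Agent.W2helper70.GI

open MeasureTheory ProbabilityTheory Finset Filter
open scoped ENNReal Topology
open Pool.Agent.W2helper70.CG

/-- the largest of the gaps after the elements with the indices `a 1, …, a k` -/
noncomputable def maxGap (M : ℕ) (ω : Om) (a : ℕ → ℕ) (k : ℕ) : ℕ := (Icc 1 k).sup fun i => gap M ω (a i)

theorem expo_of_bounds {u : ℕ → ℝ} {a : ℕ → ℕ} {c C θ : ℝ} (hc : 0 < c) (hC : 0 < C) (ha : ∀ k, k ≤ a k)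
    (h : ∀ᶠ k : ℕ in atTop, c * Real.log k * Real.log (a k) ≤ u k ∧ u k ≤ C * Real.log k * Real.log (a k))
    (hθ : Tendsto (fun k : ℕ => Real.log (Real.log k) / Real.log (Real.log (a k))) atTop (𝓝 θ)) :
    Tendsto (fun k : ℕ => Real.log (u k) / Real.log (Real.log (a k))) atTop (𝓝 (1 + θ)) := by
  have hlog : Tendsto (fun k : ℕ => Real.log k) atTop atTop :=
    Real.tendsto_log_atTop.comp tendsto_natCast_atTop_atTop
  have hloga : Tendsto (fun k : ℕ => Real.log (a k)) atTop atTop := by
    refine tendsto_atTop_mono' atTop ?_ hlog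
    filter_upwards [eventually_ge_atTop 1] with k hk
    exact Real.log_le_log (by exact_mod_cast hk) (by exact_mod_cast ha k)
  have hll : Tendsto (fun k : ℕ => Real.log (Real.log (a k))) atTop atTop := Real.tendsto_log_atTop.comp hloga
  have key : ∀ d : ℝ, 0 < d → Tendsto (fun k : ℕ => Real.log (d * Real.log k * Real.log (a k)) /
      Real.log (Real.log (a k))) atTop (𝓝 (1 + θ)) := by
    intro d hd
    have h1 : Tendsto (fun k : ℕ => Real.log d / Real.log (Real.log (a k)) +
        Real.log (Real.log k) / Real.log (Real.log (a k)) + 1) atTop (𝓝 (0 + θ + 1)) :=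
      ((tendsto_const_nhds.div_atTop hll).add hθ).add_const 1
    rw [show (0 : ℝ) + θ + 1 = 1 + θ by ring] at h1
    refine h1.congr' ?_
    filter_upwards [hlog.eventually_gt_atTop 0, hloga.eventually_gt_atTop 0, hll.eventually_gt_atTop 0] with k h2 h3 h4
    rw [Real.log_mul (by positivity) h3.ne', Real.log_mul hd.ne' h2.ne']
    field_simp
  refine tendsto_of_tendsto_of_tendsto_of_le_of_le' (key c hc) (key C hC) ?_ ?_
  · filter_upwards [h, hlog.eventually_gt_atTop 0, hloga.eventually_gt_atTop 0, hll.eventually_gt_atTop 0]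
      with k h1 h2 h3 h4
    exact div_le_div_of_nonneg_right (Real.log_le_log (by positivity) h1.1) h4.le
  · filter_upwards [h, hlog.eventually_gt_atTop 0, hloga.eventually_gt_atTop 0, hll.eventually_gt_atTop 0]
      with k h1 h2 h3 h4
    refine div_le_div_of_nonneg_right (Real.log_le_log (lt_of_lt_of_le (by positivity) h1.1) h1.2) h4.le

theorem seq_max {κ : ℝ} (hκ : 0 < κ) {M : ℕ} (hM0 : 0 < M) {D : ℝ} (hD : 0 < D) {a : ℕ → ℕ} (ha : StrictMono a)
    (haD : ∀ᶠ k : ℕ in atTop, Real.log (a k) ≤ D * Real.log (a (k / 2))) :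
    ∀ᵐ ω ∂(law κ), ∀ᶠ k : ℕ in atTop,
      1 / (4 * κ * D) * Real.log k * Real.log (a k) ≤ maxGap M ω a k ∧
      (maxGap M ω a k : ℝ) ≤ 16 * M / κ * Real.log k * Real.log (a k) := by
  filter_upwards [seq hκ hM0 hD ha haD] with ω hω
  filter_upwards [hω, eventually_ge_atTop 1] with k hk hk1
  constructor
  · obtain ⟨i, hi, hik, h⟩ := hk.2
    refine h.trans ?_
    have : gap M ω (a i) ≤ maxGap M ω a k := le_sup (f := fun i => gap M ω (a i)) (mem_Icc.2 ⟨hi, hik⟩)
    exact_mod_cast this
  · obtain ⟨i, hi, h⟩ := exists_mem_eq_sup (Icc 1 k) ⟨1, mem_Icc.2 ⟨le_rfl, hk1⟩⟩ fun i => gap M ω (a i)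
    rw [mem_Icc] at hi
    have h2 := hk.1 i hi.1 hi.2
    unfold maxGap
    rw [h]
    exact h2

end Pool.Agent.W2helper70.GI
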