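import Pool.Agent.W2helper70.GI.Sharp

set_option autoImplicit false

/-!
The asymptotic formula for the largest gap along a sequence of indices.
-/

namespace Pool.Agent.W2helper70.GI

open MeasureTheory ProbabilityTheory Finset Filter
open scoped ENNReal Topology
open Pool.Agent.W2helper70.CG

theorem lim_max {κ : ℝ} (hκ : 0 < κ) {M : ℕ} (hM : 0 < M) {a : ℕ → ℕ} (ha : StrictMono a)
    (hr : Tendsto (fun k : ℕ => Real.log (a k) / Real.log (a (k / 2))) atTop (𝓝 1)) :
    ∀ᵐ ω ∂(law κ), Tendsto (fun k : ℕ => (maxGap M ω a k : ℝ) / (Real.log k * Real.log (a k))) atTop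
      (𝓝 (M / (κ * M.totient))) := by
  have hgrow : ∀ k, k ≤ a k := ha.id_le
  have hMr : (0 : ℝ) < M := by exact_mod_cast hM
  have hφr : (0 : ℝ) < M.totient := by exact_mod_cast Nat.totient_pos.2 hM
  obtain ⟨e, he⟩ : ∃ e : ℕ → ℝ, ∀ m, e m = 1 / ((m : ℝ) + 2) := ⟨_, fun _ => rfl⟩
  have he0 : ∀ m, 0 < e m := fun m => by rw [he]; positivity
  have he1 : ∀ m, e m < 1 := fun m => by
    rw [he, div_lt_one (by positivity)]
    have : (0 : ℝ) ≤ m := Nat.cast_nonneg m
    linarith
  have het : Tendsto e atTop (𝓝 0) := by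
    have h1 : Tendsto (fun m : ℕ => 1 / ((m : ℝ) + 2)) atTop (𝓝 0) :=
      tendsto_const_nhds.div_atTop (tendsto_atTop_add_const_right _ _ tendsto_natCast_atTop_atTop)
    exact h1.congr fun m => (he m).symm
  obtain ⟨L, hL⟩ : ∃ L : ℝ, L = M / (κ * M.totient) := ⟨_, rfl⟩
  have hup : ∀ m : ℕ, ∀ᵐ ω ∂(law κ), ∀ᶠ k : ℕ in atTop,
      (maxGap M ω a k : ℝ) ≤ (1 + e m) * L * Real.log k * Real.log (a k) := fun m => by
    rw [hL]
    exact up_max hκ hM ha (he0 m) (he1 m).le
  have hlo : ∀ m : ℕ, ∀ᵐ ω ∂(law κ), ∀ᶠ k : ℕ in atTop,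
      (1 - e m) / (1 + e m) * L * Real.log k * Real.log (a k) ≤ maxGap M ω a k := fun m => by
    rw [hL]
    refine lo_max hκ hM (by have := he0 m; positivity) ha ?_ (he0 m) (he1 m)
    filter_upwards [hr.eventually (gt_mem_nhds (show (1 : ℝ) < 1 + e m by have := he0 m; linarith)),
      eventually_ge_atTop 4] with k h1 h2
    have h3 : 2 ≤ a (k / 2) := le_trans (by omega) (hgrow (k / 2))
    have h4 : 0 < Real.log (a (k / 2)) := Real.log_pos (by exact_mod_cast h3)
    exact ((div_lt_iff₀ h4).1 h1).le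
  filter_upwards [ae_all_iff.2 hup, ae_all_iff.2 hlo] with ω h1 h2
  rw [← hL]
  have hpos : ∀ᶠ k : ℕ in atTop, 0 < Real.log k * Real.log (a k) := by
    filter_upwards [ev_log 1, eventually_ge_atTop 1] with k h3 h4
    have h5 : Real.log k ≤ Real.log (a k) :=
      Real.log_le_log (by exact_mod_cast h4) (by exact_mod_cast hgrow k)
    have h6 : 0 < Real.log k := by linarith
    have h7 : 0 < Real.log (a k) := by linarith
    positivity
  rw [tendsto_order]
  constructor
  · intro x hx
    have h3 : Tendsto (fun m => (1 - e m) / (1 + e m) * L) atTop (𝓝 ((1 - 0) / (1 + 0) * L)) :=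
      (((tendsto_const_nhds.sub het).div (tendsto_const_nhds.add het) (by norm_num)).mul_const L)
    rw [sub_zero, add_zero, div_one, one_mul] at h3
    obtain ⟨m, hm⟩ := (h3.eventually (lt_mem_nhds hx)).exists
    filter_upwards [h2 m, hpos] with k h4 h5
    rw [lt_div_iff₀ h5]
    calc x * (Real.log k * Real.log (a k)) < (1 - e m) / (1 + e m) * L * (Real.log k * Real.log (a k)) :=
          mul_lt_mul_of_pos_right hm h5
      _ = (1 - e m) / (1 + e m) * L * Real.log k * Real.log (a k) := by ring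
      _ ≤ _ := h4
  · intro x hx
    have h3 : Tendsto (fun m => (1 + e m) * L) atTop (𝓝 ((1 + 0) * L)) :=
      (tendsto_const_nhds.add het).mul_const L
    rw [add_zero, one_mul] at h3
    obtain ⟨m, hm⟩ := (h3.eventually (gt_mem_nhds hx)).exists
    filter_upwards [h1 m, hpos] with k h4 h5
    rw [div_lt_iff₀ h5]
    calc (maxGap M ω a k : ℝ) ≤ (1 + e m) * L * Real.log k * Real.log (a k) := h4
      _ = (1 + e m) * L * (Real.log k * Real.log (a k)) := by ring
      _ < _ := mul_lt_mul_of_pos_right hm h5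

end Pool.Agent.W2helper70.GI
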