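import Pool.Agent.W2helper70.GI.Step

set_option autoImplicit false

/-!
Largest gaps along a sequence of indices.
-/

namespace Pool.Agent.W2helper70.GI

open MeasureTheory ProbabilityTheory Finset Filter
open scoped ENNReal
open Pool.Agent.W2helper70.CG

/-- the gap after the `j`-th element, `j = 1, 2, …` -/
noncomputable def gap (M : ℕ) (ω : Om) (j : ℕ) : ℕ := P M ω (j + 1) - P M ω j

theorem sm_gap {M g j X : ℕ} {ω : Om} (hj : 1 ≤ j) (hQ : ω ∈ Qe M j X) : Sm M g (j - 1) ω ↔ gap M ω j ≤ g := by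
  obtain ⟨p', -, hp'⟩ := hQ
  obtain ⟨p, hpp, hp⟩ := exists_at_of_le hp' (Nat.sub_le j 1)
  have h1 : ω ∈ At M (j - 1 + 1) p' := by rwa [Nat.sub_add_cancel hj]
  rw [sm_iff hp h1]
  unfold gap P
  rw [Nat.add_sub_cancel, nth_of_at hp, nth_of_at hp']
  omega

/-- large gaps are missing among the indices in `J` -/
theorem low_core {κ : ℝ} (hκ : 0 ≤ κ) {M g i X b : ℕ} {a y : ℝ} (ha0 : 0 ≤ a) (ha : a ≤ 1 / 2)
    (h : ∀ j, i < j → rho κ j ≤ a) (hy : 2 * a * g ≤ y) (J : Finset ℕ) (hJ : ∀ j ∈ J, i ≤ j)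
    (hb : ∀ j ∈ J, j + 1 ≤ b) {N : ℝ} (hN : N ≤ J.card) :
    law κ ({ω | ∀ j ∈ J, Sm M g j ω} ∩ Qe M b X) ≤ ENNReal.ofReal (Real.exp (-(Real.exp (-y) * N))) := by
  have h0 : (0 : ℝ) ≤ 2 * a * g := by positivity
  have h1 := all_small_law κ (M := M) (g := g) (i := i) (X := X) (b := b)
    (θ := ENNReal.ofReal (1 - Real.exp (-(2 * a * g)))) (fun p hp _ => law_some hκ M ha0 ha
      fun j hj _ => h j (by omega)) J hJ hb
  refine h1.trans ?_
  have h2 : 0 ≤ 1 - Real.exp (-(2 * a * g)) := by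
    rw [sub_nonneg, Real.exp_le_one_iff]
    linarith
  rw [← ENNReal.ofReal_pow h2]
  refine ENNReal.ofReal_le_ofReal ?_
  calc (1 - Real.exp (-(2 * a * g))) ^ J.card ≤ Real.exp (-Real.exp (-y)) ^ J.card := by
        refine pow_le_pow_left₀ h2 ?_ _
        have h3 := Real.add_one_le_exp (-Real.exp (-y))
        have h4 : Real.exp (-y) ≤ Real.exp (-(2 * a * g)) := Real.exp_le_exp.2 (by linarith)
        linarith
    _ = Real.exp (-(Real.exp (-y) * J.card)) := by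
        rw [← Real.exp_nat_mul]; congr 1; ring
    _ ≤ _ := by
        refine Real.exp_le_exp.2 (neg_le_neg ?_)
        exact mul_le_mul_of_nonneg_left hN (Real.exp_pos _).le

theorem rho_le_of {κ : ℝ} (hκ : 0 ≤ κ) {j : ℕ} {y : ℝ} (hy : 0 < y) (h : y ≤ Real.log j) : rho κ j ≤ κ / y :=
  (min_le_right _ _).trans (div_le_div_of_nonneg_left hκ hy h)

theorem le_rho_of {κ : ℝ} (hκ : 0 ≤ κ) {j : ℕ} {y : ℝ} (hj : 2 ≤ j) (hy : 0 < y) (hκy : κ ≤ y)
    (h : Real.log j ≤ y) : κ / y ≤ rho κ j := by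
  have hj0 : 0 < Real.log j := Real.log_pos (by exact_mod_cast (by omega : 1 < j))
  exact le_min ((div_le_one hy).2 hκy) (div_le_div_of_nonneg_left hκ hj0 h)

theorem seq_bound {κ : ℝ} (hκ : 0 < κ) {M : ℕ} (hM0 : 0 < M) {D : ℝ} (hD : 0 < D) {a : ℕ → ℕ} (ha : StrictMono a)
    (haD : ∀ᶠ k : ℕ in atTop, Real.log (a k) ≤ D * Real.log (a (k / 2))) :
    ∀ᶠ k : ℕ in atTop,
      law κ (((⋃ i ∈ Icc 1 k, {ω | ¬ Sm M ⌊16 * M / κ * Real.log k * Real.log (a k)⌋₊ (a i - 1) ω} ∩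
          Qe M (a i - 1) (a k ^ 3)) ∪
        ({ω | ∀ j ∈ (Ioc (k / 2) k).image (fun i => a i - 1),
            Sm M ⌊1 / (4 * κ * D) * Real.log k * Real.log (a k)⌋₊ j ω} ∩ Qe M (a k) (a k ^ 3))) ∪
        (Qe M (a k) (a k ^ 3))ᶜ) ≤ ENNReal.ofReal (3 / (k : ℝ) ^ 2) := by
  have hMr : (1 : ℝ) ≤ M := by exact_mod_cast hM0
  have hto : Tendsto a atTop atTop := ha.tendsto_atTop
  have hgrow : ∀ k, k ≤ a k := ha.id_le
  filter_upwards [haD, hto.eventually (q_small hκ hM0 (B := 1) one_pos), hto.eventually (ev_log κ),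
    hto.eventually (ev_log (2 * κ * D)), hto.eventually (ev_log_pow 2 (16 * M / κ)), ev_log 1,
    ev_log_pow 2 16, eventually_ge_atTop 3, hto.eventually (ev_log (3 * κ / 4)),
    hto.eventually (ev_log (M / κ))] with k h1 h2 h3 h4 h5 h6 h7 h8 h9 h10
  obtain ⟨N, hN⟩ : ∃ N, N = a k := ⟨_, rfl⟩
  rw [← hN] at h1 h2 h3 h4 h5 h9 h10 ⊢
  have hkN : k ≤ N := hN ▸ hgrow k
  obtain ⟨ℓ, hℓ⟩ : ∃ ℓ : ℝ, ℓ = Real.log N := ⟨_, rfl⟩
  obtain ⟨l, hl⟩ : ∃ l : ℝ, l = Real.log k := ⟨_, rfl⟩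
  rw [← hℓ] at h1 h3 h4 h5 h9 h10 ⊢
  rw [← hl] at h6 h7 ⊢
  have hk0 : (0 : ℝ) < k := by exact_mod_cast (by omega : 0 < k)
  have hlℓ : l ≤ ℓ := by
    rw [hl, hℓ]
    exact Real.log_le_log hk0 (by exact_mod_cast hkN)
  have hl0 : 0 < l := by linarith
  have hℓ0 : 0 < ℓ := by linarith
  have hN3 : 3 ≤ N := h8.trans hkN
  have hexpl : Real.exp l = k := by rw [hl, Real.exp_log hk0]
  -- upper part
  have hU : ∀ i ∈ Icc 1 k, law κ ({ω | ¬ Sm M ⌊16 * M / κ * l * ℓ⌋₊ (a i - 1) ω} ∩ Qe M (a i - 1) (N ^ 3)) ≤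
      ENNReal.ofReal (1 / (k : ℝ) ^ 3) := by
    intro i _
    set G : ℕ := ⌊16 * M / κ * l * ℓ⌋₊ with hG
    have hG1 : 16 * M / κ * l * ℓ < G + 1 := Nat.lt_floor_add_one _
    have hG2 : (G : ℝ) ≤ 16 * M / κ * l * ℓ := Nat.floor_le (by positivity)
    have hGbig : 16 ≤ 16 * M / κ * l * ℓ := by
      have h11 : 1 ≤ M / κ * ℓ := by
        rw [div_mul_eq_mul_div, le_div_iff₀ hκ]
        have : κ ≤ ℓ := h3
        nlinarith
      calc (16 : ℝ) = 16 * 1 * 1 := by norm_num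
        _ ≤ 16 * (M / κ * ℓ) * l := by gcongr
        _ = _ := by ring
    have hGpos : 0 < G := by
      have : (0 : ℝ) < G := by linarith
      exact_mod_cast this
    have hX : N ^ 3 + G ≤ N ^ 4 := by
      have h11 : (G : ℝ) ≤ N := by
        calc (G : ℝ) ≤ 16 * M / κ * l * ℓ := hG2
          _ ≤ 16 * M / κ * ℓ * ℓ := by gcongr
          _ = 16 * M / κ * ℓ ^ 2 := by ring
          _ ≤ N := h5
      have h12 : G ≤ N := by exact_mod_cast h11
      have h13 : N ≤ N ^ 3 := Nat.le_self_pow (by norm_num) N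
      calc N ^ 3 + G ≤ N ^ 3 + N ^ 3 := by omega
        _ = N ^ 3 * 2 := by ring
        _ ≤ N ^ 3 * N := Nat.mul_le_mul_left _ (by omega)
        _ = N ^ 4 := by ring
    refine (one_large hκ.le hM0 hGpos (a := κ / (4 * ℓ)) (by positivity) fun j hj hj' => ?_).trans ?_
    · refine le_rho_of hκ.le hj (by positivity) (by linarith) ?_
      have h11 : (j : ℝ) ≤ (N : ℝ) ^ 4 := by exact_mod_cast hj'.trans hX
      have h12 := Real.log_le_log (by exact_mod_cast (by omega : 0 < j)) h11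
      rw [Real.log_pow, ← hℓ] at h12
      exact_mod_cast h12
    · refine ENNReal.ofReal_le_ofReal ?_
      have h11 : (16 * M / κ * l * ℓ - 2) / M - 1 ≤ (((G - 1) / M : ℕ) : ℝ) := by
        have h12 : ((G - 1 : ℕ) : ℝ) < M * (((G - 1) / M : ℕ) : ℝ) + M := by
          have := Nat.lt_mul_div_succ (G - 1) hM0
          rw [Nat.mul_add, mul_one] at this
          exact_mod_cast this
        have h13 : ((G - 1 : ℕ) : ℝ) = G - 1 := by
          rw [Nat.cast_sub hGpos]; norm_num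
        rw [h13] at h12
        rw [sub_le_iff_le_add, div_le_iff₀ (by linarith)]
        linarith
      have h12 : 3 * l ≤ κ / (4 * ℓ) * (((G - 1) / M : ℕ) : ℝ) := by
        have h13 : κ / (4 * ℓ) * ((16 * M / κ * l * ℓ - 2) / M - 1) = 4 * l - κ * (2 / M + 1) / (4 * ℓ) := by
          field_simp
          ring
        have h14 : κ * (2 / M + 1) / (4 * ℓ) ≤ 1 := by
          rw [div_le_one (by positivity)]
          have h15 : (2 : ℝ) / M ≤ 2 := by
            rw [div_le_iff₀ (by linarith)]; linarith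
          nlinarith
        calc 3 * l ≤ 4 * l - κ * (2 / M + 1) / (4 * ℓ) := by linarith
          _ = κ / (4 * ℓ) * ((16 * M / κ * l * ℓ - 2) / M - 1) := h13.symm
          _ ≤ _ := mul_le_mul_of_nonneg_left h11 (by positivity)
      calc Real.exp (-(κ / (4 * ℓ) * (((G - 1) / M : ℕ) : ℝ))) ≤ Real.exp (-(3 * l)) :=
            Real.exp_le_exp.2 (by linarith)
        _ = 1 / (k : ℝ) ^ 3 := by
            rw [Real.exp_neg, one_div, ← hexpl, ← Real.exp_nat_mul]
            norm_num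
  -- lower part
  have hL : law κ ({ω | ∀ j ∈ (Ioc (k / 2) k).image (fun i => a i - 1), Sm M ⌊1 / (4 * κ * D) * l * ℓ⌋₊ j ω} ∩
      Qe M N (N ^ 3)) ≤ ENNReal.ofReal (1 / (k : ℝ) ^ 2) := by
    set g : ℕ := ⌊1 / (4 * κ * D) * l * ℓ⌋₊ with hg
    have hg2 : (g : ℝ) ≤ 1 / (4 * κ * D) * l * ℓ := Nat.floor_le (by positivity)
    have hinj : Set.InjOn (fun i => a i - 1) (Ioc (k / 2) k : Finset ℕ) := by
      intro x hx y hy hxy
      rw [mem_coe, mem_Ioc] at hx hy
      have e1 := hgrow x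
      have e2 := hgrow y
      have e3 : a x - 1 = a y - 1 := hxy
      exact ha.injective (by omega)
    have hlog2 : ℓ / D ≤ Real.log (a (k / 2)) := by
      rw [div_le_iff₀ hD]; linarith
    refine (low_core hκ.le (M := M) (g := g) (i := a (k / 2)) (X := N ^ 3) (b := N) (a := κ * D / ℓ) (y := l / 2)
      (by positivity) ?_ (fun j hj => ?_) ?_ _ ?_ ?_ (N := k / 2) ?_).trans ?_
    · rw [div_le_iff₀ hℓ0]
      linarith
    · have h11 : Real.log (a (k / 2)) ≤ Real.log j := by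
        rcases Nat.eq_zero_or_pos (a (k / 2)) with h0 | h0
        · rw [h0]
          simp only [Nat.cast_zero, Real.log_zero]
          exact Real.log_natCast_nonneg j
        · exact Real.log_le_log (by exact_mod_cast h0) (by exact_mod_cast hj.le)
      have h12 := rho_le_of hκ.le (j := j) (y := ℓ / D) (by positivity) (hlog2.trans h11)
      rwa [div_div_eq_mul_div] at h12
    · calc 2 * (κ * D / ℓ) * g ≤ 2 * (κ * D / ℓ) * (1 / (4 * κ * D) * l * ℓ) := by gcongr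
        _ = l / 2 := by
            field_simp
            ring
    · intro j hj
      obtain ⟨i, hi, rfl⟩ := mem_image.1 hj
      rw [mem_Ioc] at hi
      have := ha hi.1
      omega
    · intro j hj
      obtain ⟨i, hi, rfl⟩ := mem_image.1 hj
      rw [mem_Ioc] at hi
      have e1 := ha.monotone hi.2
      have e2 := hgrow i
      rw [← hN] at e1
      omega
    · rw [card_image_of_injOn hinj, Nat.card_Ioc]
      have h11 : (k : ℝ) ≤ 2 * ((k - k / 2 : ℕ) : ℝ) := by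
        have : k ≤ 2 * (k - k / 2) := by omega
        exact_mod_cast this
      linarith
    · refine ENNReal.ofReal_le_ofReal ?_
      have h11 : Real.exp (-(l / 2)) * (k / 2) = Real.exp (l / 2) / 2 := by
        rw [← hexpl, mul_div_assoc', ← Real.exp_add]
        congr 2
        ring
      have h12 : 4 * l ≤ Real.exp (l / 2) := by
        have h13 : (4 * l) ^ 2 ≤ Real.exp (l / 2) ^ 2 := by
          rw [← Real.exp_nat_mul, show ((2 : ℕ) : ℝ) * (l / 2) = l by push_cast; ring, hexpl]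
          have h14 : (4 * l) ^ 2 = 16 * l ^ 2 := by ring
          rw [h14]
          exact h7
        exact (pow_le_pow_iff_left₀ (by positivity) (Real.exp_pos _).le two_ne_zero).1 h13
      rw [h11]
      calc Real.exp (-(Real.exp (l / 2) / 2)) ≤ Real.exp (-(2 * l)) := Real.exp_le_exp.2 (by linarith)
        _ = 1 / (k : ℝ) ^ 2 := by
            rw [Real.exp_neg, one_div, ← hexpl, ← Real.exp_nat_mul]
            norm_num
  have hQ : law κ (Qe M N (N ^ 3))ᶜ ≤ ENNReal.ofReal (1 / (k : ℝ) ^ 2) := by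
    have h11 : law κ (Qe M N (N ^ 3))ᶜ ≤ ENNReal.ofReal (1 / (N : ℝ) ^ 2) := by
      simpa using h2
    refine h11.trans (ENNReal.ofReal_le_ofReal ?_)
    exact one_div_le_one_div_of_le (by positivity) (pow_le_pow_left₀ hk0.le (by exact_mod_cast hkN) 2)
  calc law κ _ ≤ (law κ (⋃ i ∈ Icc 1 k, {ω | ¬ Sm M ⌊16 * M / κ * l * ℓ⌋₊ (a i - 1) ω} ∩ Qe M (a i - 1) (N ^ 3)) +
        law κ ({ω | ∀ j ∈ (Ioc (k / 2) k).image (fun i => a i - 1), Sm M ⌊1 / (4 * κ * D) * l * ℓ⌋₊ j ω} ∩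
          Qe M N (N ^ 3))) + law κ (Qe M N (N ^ 3))ᶜ :=
        (measure_union_le _ _).trans (add_le_add (measure_union_le _ _) le_rfl)
    _ ≤ (ENNReal.ofReal (1 / (k : ℝ) ^ 2) + ENNReal.ofReal (1 / (k : ℝ) ^ 2)) + ENNReal.ofReal (1 / (k : ℝ) ^ 2) := by
        refine add_le_add (add_le_add ?_ hL) hQ
        refine (measure_biUnion_finset_le _ _).trans ((sum_le_sum hU).trans (le_of_eq ?_))
        rw [sum_const, Nat.card_Icc, Nat.add_sub_cancel, nsmul_eq_mul, ← ENNReal.ofReal_natCast,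
          ← ENNReal.ofReal_mul hk0.le]
        congr 1
        field_simp
    _ = ENNReal.ofReal (3 / (k : ℝ) ^ 2) := by
        rw [← ENNReal.ofReal_add (by positivity) (by positivity), ← ENNReal.ofReal_add (by positivity) (by positivity)]
        congr 1
        ring

/-- **Gaps along a sequence of indices.** -/
theorem seq {κ : ℝ} (hκ : 0 < κ) {M : ℕ} (hM0 : 0 < M) {D : ℝ} (hD : 0 < D) {a : ℕ → ℕ} (ha : StrictMono a)
    (haD : ∀ᶠ k : ℕ in atTop, Real.log (a k) ≤ D * Real.log (a (k / 2))) :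
    ∀ᵐ ω ∂(law κ), ∀ᶠ k : ℕ in atTop,
      (∀ i, 1 ≤ i → i ≤ k → (gap M ω (a i) : ℝ) ≤ 16 * M / κ * Real.log k * Real.log (a k)) ∧
      ∃ i, 1 ≤ i ∧ i ≤ k ∧ 1 / (4 * κ * D) * Real.log k * Real.log (a k) ≤ gap M ω (a i) := by
  have hgrow : ∀ k, k ≤ a k := ha.id_le
  filter_upwards [bc κ (seq_bound hκ hM0 hD ha haD)] with ω hω
  filter_upwards [hω, eventually_ge_atTop 1] with k hk hk1
  have hQ : ω ∈ Qe M (a k) (a k ^ 3) := by
    by_contra hc
    exact hk (Or.inr hc)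
  have hak : (1 : ℝ) ≤ a k := by exact_mod_cast hk1.trans (hgrow k)
  have hl0 : 0 ≤ Real.log k := Real.log_natCast_nonneg k
  have hl1 : 0 ≤ Real.log (a k) := Real.log_natCast_nonneg _
  constructor
  · intro i hi hik
    have h1 : 1 ≤ a i := hi.trans (hgrow i)
    have h2 : ω ∈ Qe M (a i) (a k ^ 3) := Qe_anti (ha.monotone hik) hQ
    have h3 : Sm M ⌊16 * M / κ * Real.log k * Real.log (a k)⌋₊ (a i - 1) ω := by
      by_contra hc
      apply hk
      refine Or.inl (Or.inl ?_)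
      rw [Set.mem_iUnion₂]
      exact ⟨i, mem_Icc.2 ⟨hi, hik⟩, hc, Qe_anti (Nat.sub_le _ _) h2⟩
    have h4 := (sm_gap h1 h2).1 h3
    have h5 : (gap M ω (a i) : ℝ) ≤ (⌊16 * M / κ * Real.log k * Real.log (a k)⌋₊ : ℝ) := by exact_mod_cast h4
    exact h5.trans (Nat.floor_le (by positivity))
  · by_contra hno
    push Not at hno
    apply hk
    refine Or.inl (Or.inr ⟨?_, hQ⟩)
    intro j hj
    obtain ⟨i, hi, rfl⟩ := mem_image.1 hj
    rw [mem_Ioc] at hi
    have h1 : 1 ≤ i := by omega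
    have h2 : ω ∈ Qe M (a i) (a k ^ 3) := Qe_anti (ha.monotone hi.2) hQ
    rw [sm_gap (h1.trans (hgrow i)) h2]
    exact Nat.le_floor (hno i h1 hi.2).le

end Pool.Agent.W2helper70.GI
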