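import Pool.Agent.W2helper70.GI.Win

set_option autoImplicit false

/-!
Largest gaps along a sequence of indices, with the sharp constants.
-/

namespace Pool.Agent.W2helper70.GI

open MeasureTheory ProbabilityTheory Finset Filter
open scoped ENNReal Topology
open Pool.Agent.W2helper70.CG

theorem ev_log_rpow {δ : ℝ} (hδ : 0 < δ) (x : ℝ) : ∀ᶠ n : ℕ in atTop, x * Real.log n ^ 2 ≤ (n : ℝ) ^ δ := by
  have h1 := (isLittleO_log_rpow_rpow_atTop 2 hδ).def (show (0 : ℝ) < 1 / (|x| + 1) by positivity)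
  have h2 := tendsto_natCast_atTop_atTop.eventually h1
  filter_upwards [h2] with n hn
  have h3 : (0 : ℝ) ≤ Real.log n ^ 2 := sq_nonneg _
  have h4 : (0 : ℝ) ≤ (n : ℝ) ^ δ := Real.rpow_nonneg (Nat.cast_nonneg n) δ
  rw [Real.rpow_two, Real.norm_of_nonneg h3, Real.norm_of_nonneg h4, one_div, inv_mul_eq_div,
    le_div_iff₀ (by positivity)] at hn
  have h5 : x ≤ |x| := le_abs_self x
  nlinarith

theorem bc' (κ : ℝ) {Bad : ℕ → Set Om} {C s : ℝ} (hs : 1 < s)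
    (h : ∀ᶠ n : ℕ in atTop, law κ (Bad n) ≤ ENNReal.ofReal (C / (n : ℝ) ^ s)) :
    ∀ᵐ ω ∂(law κ), ∀ᶠ n : ℕ in atTop, ω ∉ Bad n := by
  obtain ⟨N, hN⟩ := eventually_atTop.1 h
  have h1 : ∑' n, law κ (Bad (n + N)) ≠ ∞ := by
    have h2 : Summable fun n : ℕ => C / ((n + N : ℕ) : ℝ) ^ s := by
      have h3 : Summable fun n : ℕ => C / (n : ℝ) ^ s := by
        simp only [div_eq_mul_inv]
        exact (Real.summable_nat_rpow_inv.2 hs).mul_left C
      exact (summable_nat_add_iff N).2 h3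
    refine ne_top_of_le_ne_top h2.tsum_ofReal_ne_top (ENNReal.tsum_le_tsum fun n => hN _ (by omega))
  have h4 := ae_eventually_notMem h1
  filter_upwards [h4] with ω hω
  obtain ⟨m, hm⟩ := eventually_atTop.1 hω
  refine eventually_atTop.2 ⟨m + N, fun n hn => ?_⟩
  have := hm (n - N) (by omega)
  rwa [Nat.sub_add_cancel (by omega)] at this

/-- the `N`-th element is at most `N ^ (1 + δ)` -/
theorem q_sharp {κ : ℝ} (hκ : 0 < κ) {M : ℕ} (hM : 0 < M) {δ : ℝ} (hδ : 0 < δ) (hδ1 : δ ≤ 1) :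
    ∀ᶠ N : ℕ in atTop, law κ (Qe M N ⌊(N : ℝ) ^ (1 + δ)⌋₊)ᶜ ≤ ENNReal.ofReal (1 / (N : ℝ) ^ 2) := by
  have hM' : (0 : ℝ) < M := by exact_mod_cast hM
  filter_upwards [ev_log κ, ev_log 1, ev_log_rpow (half_pos hδ) (1 + M + 8 * M / κ), ev_log_rpow (half_pos hδ) 3,
    eventually_ge_atTop 3] with N h1 h2 h3 h4 h5
  obtain ⟨l, hl⟩ : ∃ l : ℝ, l = Real.log N := ⟨_, rfl⟩
  rw [← hl] at h1 h2 h3 h4
  have hl0 : 0 < l := by linarith
  have hN0 : (0 : ℝ) < N := by exact_mod_cast (by omega : 0 < N)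
  have hN3 : (3 : ℝ) ≤ N := by exact_mod_cast h5
  have hexp : Real.exp l = N := by rw [hl, Real.exp_log hN0]
  have hl2 : 1 ≤ l ^ 2 := by nlinarith
  have hpw : (3 : ℝ) ≤ (N : ℝ) ^ (δ / 2) := by nlinarith
  set w : ℕ := ⌊(N : ℝ) ^ (δ / 2)⌋₊ with hw
  have hw1 : (w : ℝ) ≤ (N : ℝ) ^ (δ / 2) := Nat.floor_le (by positivity)
  have hw2 : (N : ℝ) ^ (δ / 2) < w + 1 := Nat.lt_floor_add_one _
  have hw3 : 2 ≤ w := by
    refine Nat.le_floor ?_
    push_cast
    linarith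
  refine (law_Qe hκ.le hM (b := N) (w := w) (X := ⌊(N : ℝ) ^ (1 + δ)⌋₊) hw3 ?_ (a := κ / (2 * l)) (by positivity)
    fun j hj hj' => ?_).trans (ENNReal.ofReal_le_ofReal ?_)
  · have h6 : (N + 2) * w ≤ ⌊(N : ℝ) ^ (1 + δ)⌋₊ := by
      refine Nat.le_floor ?_
      push_cast
      calc ((N : ℝ) + 2) * w ≤ (3 * N) * (N : ℝ) ^ (δ / 2) := by
            refine mul_le_mul (by linarith) hw1 (Nat.cast_nonneg _) (by positivity)
        _ = 3 * (N * (N : ℝ) ^ (δ / 2)) := by ring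
        _ ≤ (N : ℝ) ^ (δ / 2) * (N * (N : ℝ) ^ (δ / 2)) := by gcongr
        _ = (N : ℝ) ^ (1 + δ) := by
            rw [show (1 : ℝ) + δ = δ / 2 + (1 + δ / 2) by ring, Real.rpow_add hN0, Real.rpow_add hN0, Real.rpow_one]
    omega
  · refine le_rho_of hκ.le hj (by positivity) (by linarith) ?_
    have hj0 : (0 : ℝ) < j := by exact_mod_cast (by omega : 0 < j)
    have h6 : (j : ℝ) ≤ (N : ℝ) ^ (1 + δ) := (Nat.le_floor_iff (by positivity)).1 hj'
    have h7 := Real.log_le_log hj0 h6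
    rw [Real.log_rpow hN0, ← hl] at h7
    nlinarith
  · have h6 : 4 * l ≤ κ / (2 * l) * ((w / M : ℕ) : ℝ) := by
      have h7 : ((w : ℝ) + 1) ≤ M * (((w / M : ℕ) : ℝ) + 1) := by
        have := Nat.lt_mul_div_succ w hM
        exact_mod_cast this
      have h8 : 8 * l ^ 2 / κ ≤ ((w / M : ℕ) : ℝ) := by
        have h9 : M * (8 * l ^ 2 / κ + 1) ≤ (N : ℝ) ^ (δ / 2) := by
          refine le_trans ?_ h3
          have h10 : (1 + M + 8 * M / κ) * l ^ 2 = l ^ 2 + M * l ^ 2 + M * (8 * l ^ 2 / κ) := by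
            field_simp
          rw [h10]
          nlinarith
        have h10 : M * (8 * l ^ 2 / κ + 1) ≤ M * (((w / M : ℕ) : ℝ) + 1) := by linarith
        have h11 := le_of_mul_le_mul_left h10 hM'
        linarith
      calc 4 * l = κ / (2 * l) * (8 * l ^ 2 / κ) := by
            field_simp
            ring
        _ ≤ _ := mul_le_mul_of_nonneg_left h8 (by positivity)
    calc ((N : ℝ) + 1) * Real.exp (-(κ / (2 * l) * ((w / M : ℕ) : ℝ)))
        ≤ (N : ℝ) ^ 2 * Real.exp (-(4 * l)) := by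
          refine mul_le_mul (by nlinarith) (Real.exp_le_exp.2 (by linarith)) (Real.exp_pos _).le (by positivity)
      _ = 1 / (N : ℝ) ^ 2 := by
          rw [Real.exp_neg, show Real.exp (4 * l) = (N : ℝ) ^ 4 by rw [← hexp, ← Real.exp_nat_mul]; norm_num]
          field_simp

/-- one gap is large, sharp -/
theorem up_sharp {κ : ℝ} (hκ : 0 < κ) {M : ℕ} (hM : 0 < M) {a : ℕ → ℕ} (ha : StrictMono a) {ε : ℝ} (hε : 0 < ε)
    (hε1 : ε ≤ 1) : ∀ᶠ i : ℕ in atTop,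
      law κ (({ω | ¬ Sm M ⌊(1 + ε) * (M / (κ * M.totient)) * Real.log i * Real.log (a i)⌋₊ (a i - 1) ω} ∩
        Qe M (a i - 1) ⌊(a i : ℝ) ^ (1 + ε / 16)⌋₊) ∪ (Qe M (a i) ⌊(a i : ℝ) ^ (1 + ε / 16)⌋₊)ᶜ) ≤
        ENNReal.ofReal (2 / (i : ℝ) ^ (1 + ε / 8)) := by
  have hMr : (1 : ℝ) ≤ M := by exact_mod_cast hM
  have hφ : 0 < M.totient := Nat.totient_pos.2 hM
  have hφr : (0 : ℝ) < M.totient := by exact_mod_cast hφ
  have hto : Tendsto a atTop atTop := ha.tendsto_atTop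
  have hgrow : ∀ k, k ≤ a k := ha.id_le
  obtain ⟨L, hL⟩ : ∃ L : ℝ, L = M / (κ * M.totient) := ⟨_, rfl⟩
  have hL0 : 0 < L := by rw [hL]; positivity
  rw [← hL]
  filter_upwards [hto.eventually (q_sharp hκ hM (δ := ε / 16) (by positivity) (by linarith)),
    hto.eventually (ev_log κ), ev_log 1, ev_log (2 * κ * M.totient / ε), eventually_ge_atTop 3,
    hto.eventually (ev_log_rpow (show (0 : ℝ) < ε / 16 by positivity) (2 * L + 2))] with i h1 h2 h3 h4 h5 h6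
  obtain ⟨N, hN⟩ : ∃ N, N = a i := ⟨_, rfl⟩
  rw [← hN] at h1 h2 h6 ⊢
  have hiN : i ≤ N := hN ▸ hgrow i
  obtain ⟨ℓ, hℓ⟩ : ∃ ℓ : ℝ, ℓ = Real.log N := ⟨_, rfl⟩
  obtain ⟨l, hl⟩ : ∃ l : ℝ, l = Real.log i := ⟨_, rfl⟩
  rw [← hℓ] at h2 h6 ⊢
  rw [← hl] at h3 h4 ⊢
  have hi0 : (0 : ℝ) < i := by exact_mod_cast (by omega : 0 < i)
  have hi1 : (1 : ℝ) ≤ i := by exact_mod_cast (by omega : 1 ≤ i)
  have hlℓ : l ≤ ℓ := by
    rw [hl, hℓ]
    exact Real.log_le_log hi0 (by exact_mod_cast hiN)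
  have hl0 : 0 < l := by linarith
  have hℓ0 : 0 < ℓ := by linarith
  have hN3 : 3 ≤ N := h5.trans hiN
  have hN0 : (0 : ℝ) < N := by exact_mod_cast (by omega : 0 < N)
  have hN1 : (1 : ℝ) ≤ N := by exact_mod_cast (by omega : 1 ≤ N)
  have hexpl : Real.exp l = i := by rw [hl, Real.exp_log hi0]
  set X : ℕ := ⌊(N : ℝ) ^ (1 + ε / 16)⌋₊ with hX
  set g : ℕ := ⌊(1 + ε) * L * l * ℓ⌋₊ with hg
  have hg1 : (1 + ε) * L * l * ℓ < g + 1 := Nat.lt_floor_add_one _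
  have hg2 : (g : ℝ) ≤ (1 + ε) * L * l * ℓ := Nat.floor_le (by positivity)
  have hX2 : (X : ℝ) ≤ (N : ℝ) ^ (1 + ε / 16) := Nat.floor_le (by positivity)
  have hpw1 : (1 : ℝ) ≤ (N : ℝ) ^ (ε / 16) := Real.one_le_rpow hN1 (by positivity)
  have hℓ2 : 1 ≤ ℓ ^ 2 := by nlinarith
  have hsum : ((X + g : ℕ) : ℝ) ≤ (N : ℝ) ^ (1 + ε / 8) := by
    have h7 : (g : ℝ) ≤ (2 * L) * ℓ ^ 2 := by
      calc (g : ℝ) ≤ (1 + ε) * L * l * ℓ := hg2
        _ ≤ 2 * L * ℓ * ℓ := by gcongr; linarith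
        _ = _ := by ring
    have h8 : (g : ℝ) + 2 ≤ (N : ℝ) ^ (ε / 16) := by nlinarith
    have h9 : (N : ℝ) ^ (1 + ε / 8) = (N : ℝ) ^ (ε / 16) * (N : ℝ) ^ (1 + ε / 16) := by
      rw [← Real.rpow_add hN0]
      congr 1
      ring
    have h10 : (1 : ℝ) ≤ (N : ℝ) ^ (1 + ε / 16) := Real.one_le_rpow hN1 (by positivity)
    rw [h9]
    push_cast
    have h11 : ((g : ℝ) + 2) * (N : ℝ) ^ (1 + ε / 16) ≤ (N : ℝ) ^ (ε / 16) * (N : ℝ) ^ (1 + ε / 16) := by gcongr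
    have h12 : (g : ℝ) ≤ g * (N : ℝ) ^ (1 + ε / 16) := le_mul_of_one_le_right (Nat.cast_nonneg _) h10
    nlinarith
  have hU : law κ ({ω | ¬ Sm M g (N - 1) ω} ∩ Qe M (N - 1) X) ≤ ENNReal.ofReal (1 / (i : ℝ) ^ (1 + ε / 8)) := by
    refine one_large' κ fun p hp hpX => ?_
    refine (empty_le hκ.le (a := κ / ((1 + ε / 8) * ℓ)) (y := (1 + ε / 8) * l) (fun j hj hj' => ?_)
      (by positivity) ?_).trans (ENNReal.ofReal_le_ofReal (le_of_eq ?_))
    · refine le_rho_of hκ.le (by omega) (by positivity) (by nlinarith) ?_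
      have hj0 : (0 : ℝ) < j := by exact_mod_cast (by omega : 0 < j)
      have h7 : (j : ℝ) ≤ (N : ℝ) ^ (1 + ε / 8) := by
        refine le_trans ?_ hsum
        exact_mod_cast (by omega : j ≤ X + g)
      have h8 := Real.log_le_log hj0 h7
      rwa [Real.log_rpow hN0, ← hℓ] at h8
    · have h7 : ((g : ℝ) + 1) ≤ M * (((g / M : ℕ) : ℝ) + 1) := by
        have := Nat.lt_mul_div_succ g hM
        exact_mod_cast this
      have h8 : (1 + ε) * l * ℓ / (κ * M.totient) - 1 ≤ ((g / M : ℕ) : ℝ) := by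
        have h9 : M * ((1 + ε) * l * ℓ / (κ * M.totient)) ≤ M * (((g / M : ℕ) : ℝ) + 1) := by
          refine le_trans (le_of_eq ?_) (hg1.le.trans h7)
          rw [hL]
          field_simp
        have := le_of_mul_le_mul_left h9 (by linarith)
        linarith
      have h9 : κ / ((1 + ε / 8) * ℓ) * (M.totient * ((1 + ε) * l * ℓ / (κ * M.totient) - 1)) =
          ((1 + ε) * l - κ * M.totient / ℓ) / (1 + ε / 8) := by
        field_simp
      calc (1 + ε / 8) * l ≤ ((1 + ε) * l - κ * M.totient / ℓ) / (1 + ε / 8) := by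
            rw [le_div_iff₀ (by positivity)]
            have h10 : κ * M.totient / ℓ ≤ κ * M.totient := div_le_self (by positivity) (by linarith)
            have h11 : κ * M.totient ≤ ε / 2 * l := by
              rw [div_le_iff₀ hε] at h4
              linarith
            have h12 : (1 + ε / 8) * (1 + ε / 8) ≤ 1 + ε / 2 := by
              have hεε : ε * ε ≤ 1 * ε := mul_le_mul_of_nonneg_right hε1 hε.le
              rw [show (1 + ε / 8) * (1 + ε / 8) = 1 + ε / 4 + ε * ε / 64 by ring]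
              linarith
            have h13 : l * ((1 + ε / 8) * (1 + ε / 8)) ≤ l * (1 + ε / 2) := mul_le_mul_of_nonneg_left h12 hl0.le
            calc (1 + ε / 8) * l * (1 + ε / 8) = l * ((1 + ε / 8) * (1 + ε / 8)) := by ring
              _ ≤ l * (1 + ε / 2) := h13
              _ ≤ (1 + ε) * l - κ * M.totient / ℓ := by linarith
        _ = _ := h9.symm
        _ ≤ _ := by gcongr
    · rw [Real.exp_neg, one_div, ← hexpl, ← Real.exp_mul]
      congr 2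
      ring
  have hs : (i : ℝ) ^ (1 + ε / 8) ≤ (N : ℝ) ^ 2 := by
    calc (i : ℝ) ^ (1 + ε / 8) ≤ (i : ℝ) ^ (2 : ℝ) := Real.rpow_le_rpow_of_exponent_le hi1 (by linarith)
      _ = (i : ℝ) ^ 2 := Real.rpow_two _
      _ ≤ (N : ℝ) ^ 2 := pow_le_pow_left₀ hi0.le (by exact_mod_cast hiN) 2
  calc law κ _ ≤ law κ ({ω | ¬ Sm M g (N - 1) ω} ∩ Qe M (N - 1) X) + law κ (Qe M N X)ᶜ := measure_union_le _ _
    _ ≤ ENNReal.ofReal (1 / (i : ℝ) ^ (1 + ε / 8)) + ENNReal.ofReal (1 / (i : ℝ) ^ (1 + ε / 8)) := by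
        refine add_le_add hU (h1.trans (ENNReal.ofReal_le_ofReal ?_))
        exact one_div_le_one_div_of_le (by positivity) hs
    _ = ENNReal.ofReal (2 / (i : ℝ) ^ (1 + ε / 8)) := by
        rw [← ENNReal.ofReal_add (by positivity) (by positivity)]
        congr 1
        ring

/-- upper bound, sharp -/
theorem up_gap {κ : ℝ} (hκ : 0 < κ) {M : ℕ} (hM : 0 < M) {a : ℕ → ℕ} (ha : StrictMono a) {ε : ℝ} (hε : 0 < ε)
    (hε1 : ε ≤ 1) : ∀ᵐ ω ∂(law κ), ∀ᶠ i : ℕ in atTop,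
      (gap M ω (a i) : ℝ) ≤ (1 + ε) * (M / (κ * M.totient)) * Real.log i * Real.log (a i) := by
  have hgrow : ∀ k, k ≤ a k := ha.id_le
  filter_upwards [bc' κ (show (1 : ℝ) < 1 + ε / 8 by linarith) (up_sharp hκ hM ha hε hε1)] with ω hω
  filter_upwards [hω, eventually_ge_atTop 1] with i hi hi1
  have hQ : ω ∈ Qe M (a i) ⌊(a i : ℝ) ^ (1 + ε / 16)⌋₊ := by
    by_contra hc
    exact hi (Or.inr hc)
  have h3 : Sm M ⌊(1 + ε) * (M / (κ * M.totient)) * Real.log i * Real.log (a i)⌋₊ (a i - 1) ω := by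
    by_contra hc
    exact hi (Or.inl ⟨hc, Qe_anti (Nat.sub_le _ _) hQ⟩)
  have h4 := (sm_gap (hi1.trans (hgrow i)) hQ).1 h3
  have h5 : (gap M ω (a i) : ℝ) ≤ (⌊(1 + ε) * (M / (κ * M.totient)) * Real.log i * Real.log (a i)⌋₊ : ℝ) := by
    exact_mod_cast h4
  refine h5.trans (Nat.floor_le ?_)
  have h6 : 0 ≤ Real.log i := Real.log_natCast_nonneg i
  have h7 : 0 ≤ Real.log (a i) := Real.log_natCast_nonneg _
  positivity

/-- upper bound for the maximum, sharp -/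
theorem up_max {κ : ℝ} (hκ : 0 < κ) {M : ℕ} (hM : 0 < M) {a : ℕ → ℕ} (ha : StrictMono a) {ε : ℝ} (hε : 0 < ε)
    (hε1 : ε ≤ 1) : ∀ᵐ ω ∂(law κ), ∀ᶠ k : ℕ in atTop,
      (maxGap M ω a k : ℝ) ≤ (1 + ε) * (M / (κ * M.totient)) * Real.log k * Real.log (a k) := by
  have hgrow : ∀ k, k ≤ a k := ha.id_le
  have hMr : (0 : ℝ) < M := by exact_mod_cast hM
  have hφr : (0 : ℝ) < M.totient := by exact_mod_cast Nat.totient_pos.2 hM
  obtain ⟨c, hc⟩ : ∃ c : ℝ, c = (1 + ε) * (M / (κ * M.totient)) := ⟨_, rfl⟩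
  have hc0 : 0 < c := by rw [hc]; positivity
  filter_upwards [up_gap hκ hM ha hε hε1] with ω hω
  rw [← hc] at hω ⊢
  obtain ⟨i₀, hi₀⟩ := eventually_atTop.1 hω
  filter_upwards [ev_log 1, ev_log ((maxGap M ω a i₀ : ℝ) / c), eventually_ge_atTop 1] with k h1 h2 h3
  obtain ⟨i, hi, h⟩ := exists_mem_eq_sup (Icc 1 k) ⟨1, mem_Icc.2 ⟨le_rfl, h3⟩⟩ fun i => gap M ω (a i)
  rw [mem_Icc] at hi
  have hk0 : (0 : ℝ) < k := by exact_mod_cast h3
  have h4 : Real.log k ≤ Real.log (a k) := Real.log_le_log hk0 (by exact_mod_cast hgrow k)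
  unfold maxGap
  rw [h]
  rcases le_or_gt i₀ i with h5 | h5
  · refine (hi₀ i h5).trans ?_
    have hi0 : (0 : ℝ) < i := by exact_mod_cast hi.1
    have h6 : Real.log i ≤ Real.log k := Real.log_le_log hi0 (by exact_mod_cast hi.2)
    have h7 : Real.log (a i) ≤ Real.log (a k) := by
      refine Real.log_le_log ?_ (by exact_mod_cast ha.monotone hi.2)
      exact_mod_cast lt_of_lt_of_le hi.1 (hgrow i)
    have h8 : 0 ≤ Real.log i := Real.log_natCast_nonneg i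
    have h9 : 0 ≤ Real.log (a i) := Real.log_natCast_nonneg _
    gcongr
  · have h6 : gap M ω (a i) ≤ maxGap M ω a i₀ :=
      le_sup (f := fun i => gap M ω (a i)) (mem_Icc.2 ⟨hi.1, h5.le⟩)
    have h7 : (gap M ω (a i) : ℝ) ≤ maxGap M ω a i₀ := by exact_mod_cast h6
    rw [div_le_iff₀ hc0] at h2
    have h8 : 1 ≤ Real.log (a k) := h1.trans h4
    calc (gap M ω (a i) : ℝ) ≤ Real.log k * c := h7.trans h2
      _ = c * Real.log k * 1 := by ring
      _ ≤ c * Real.log k * Real.log (a k) := by gcongr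

/-- large gaps are not missing, sharp -/
theorem lo_sharp {κ : ℝ} (hκ : 0 < κ) {M : ℕ} (hM : 0 < M) {D : ℝ} (hD : 0 < D) {a : ℕ → ℕ} (ha : StrictMono a)
    (haD : ∀ᶠ k : ℕ in atTop, Real.log (a k) ≤ D * Real.log (a (k / 2))) {ε : ℝ} (hε : 0 < ε) (hε1 : ε < 1) :
    ∀ᶠ k : ℕ in atTop,
      law κ (({ω | ∀ j ∈ (Ioc (k / 2) k).image (fun i => a i - 1),
            Sm M ⌊(1 - ε) / D * (M / (κ * M.totient)) * Real.log k * Real.log (a k)⌋₊ j ω} ∩
              Qe M (a k) (a k ^ 3)) ∪ (Qe M (a k) (a k ^ 3))ᶜ) ≤ ENNReal.ofReal (2 / (k : ℝ) ^ 2) := by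
  have hMr : (1 : ℝ) ≤ M := by exact_mod_cast hM
  have hφr : (0 : ℝ) < M.totient := by exact_mod_cast Nat.totient_pos.2 hM
  have hto : Tendsto a atTop atTop := ha.tendsto_atTop
  have hgrow : ∀ k, k ≤ a k := ha.id_le
  have hε' : 0 < 1 - ε := by linarith
  filter_upwards [haD, hto.eventually (q_small hκ hM (B := 1) one_pos), ev_log 1, ev_log (4 * κ * D / ε),
    ev_log (4 * κ * D * M.totient / ε), ev_log_rpow (half_pos hε) 4, eventually_ge_atTop 3]
    with k h1 h2 h3 h4 h5 h6 h8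
  obtain ⟨N, hN⟩ : ∃ N, N = a k := ⟨_, rfl⟩
  rw [← hN] at h1 h2 ⊢
  have hkN : k ≤ N := hN ▸ hgrow k
  obtain ⟨ℓ, hℓ⟩ : ∃ ℓ : ℝ, ℓ = Real.log N := ⟨_, rfl⟩
  obtain ⟨l, hl⟩ : ∃ l : ℝ, l = Real.log k := ⟨_, rfl⟩
  rw [← hℓ] at h1 ⊢
  rw [← hl] at h3 h4 h5 h6 ⊢
  have hk0 : (0 : ℝ) < k := by exact_mod_cast (by omega : 0 < k)
  have hlℓ : l ≤ ℓ := by
    rw [hl, hℓ]
    exact Real.log_le_log hk0 (by exact_mod_cast hkN)
  have hl0 : 0 < l := by linarith
  have hℓ0 : 0 < ℓ := by linarith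
  have hN3 : 3 ≤ N := h8.trans hkN
  have hexpl : Real.exp l = k := by rw [hl, Real.exp_log hk0]
  have hα : κ * D / ℓ ≤ ε / 4 := by
    rw [div_le_iff₀ hℓ0]
    rw [div_le_iff₀ hε] at h4
    nlinarith
  have hα0 : 0 < κ * D / ℓ := by positivity
  have hL : law κ ({ω | ∀ j ∈ (Ioc (k / 2) k).image (fun i => a i - 1),
      Sm M ⌊(1 - ε) / D * (M / (κ * M.totient)) * l * ℓ⌋₊ j ω} ∩
      Qe M N (N ^ 3)) ≤ ENNReal.ofReal (1 / (k : ℝ) ^ 2) := by
    set g : ℕ := ⌊(1 - ε) / D * (M / (κ * M.totient)) * l * ℓ⌋₊ with hg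
    have hg2 : (g : ℝ) ≤ (1 - ε) / D * (M / (κ * M.totient)) * l * ℓ := Nat.floor_le (by positivity)
    have hinj : Set.InjOn (fun i => a i - 1) (Ioc (k / 2) k : Finset ℕ) := by
      intro x hx y hy hxy
      rw [mem_coe, mem_Ioc] at hx hy
      have e1 := hgrow x
      have e2 := hgrow y
      have e3 : a x - 1 = a y - 1 := hxy
      exact ha.injective (by omega)
    have hlog2 : ℓ / D ≤ Real.log (a (k / 2)) := by
      rw [div_le_iff₀ hD]; linarith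
    refine (low_core' hκ.le hM (g := g) (i := a (k / 2)) (X := N ^ 3) (b := N) (a := κ * D / ℓ)
      (y := (1 - ε / 2) * l) (by positivity) (by linarith) (fun j hj => ?_) ?_ _ ?_ ?_ (N := k / 2) ?_).trans ?_
    · have h11 : Real.log (a (k / 2)) ≤ Real.log j := by
        rcases Nat.eq_zero_or_pos (a (k / 2)) with h0 | h0
        · rw [h0]
          simp only [Nat.cast_zero, Real.log_zero]
          exact Real.log_natCast_nonneg j
        · exact Real.log_le_log (by exact_mod_cast h0) (by exact_mod_cast hj.le)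
      have h12 := rho_le_of hκ.le (j := j) (y := ℓ / D) (by positivity) (hlog2.trans h11)
      rwa [div_div_eq_mul_div] at h12
    · have h11 : κ * D / ℓ * (M.totient * ((g : ℝ) / M + 1)) ≤ (1 - ε) * l + κ * D * M.totient / ℓ := by
        calc κ * D / ℓ * (M.totient * ((g : ℝ) / M + 1))
            ≤ κ * D / ℓ * (M.totient * (((1 - ε) / D * (M / (κ * M.totient)) * l * ℓ) / M + 1)) := by gcongr
          _ = _ := by
              field_simp
      have h12 : κ * D * M.totient / ℓ ≤ ε / 4 * l := by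
        have h13 : κ * D * M.totient / ℓ ≤ κ * D * M.totient := div_le_self (by positivity) (by linarith)
        rw [div_le_iff₀ hε] at h5
        linarith
      have h13 : 0 < 1 - κ * D / ℓ := by linarith
      rw [div_mul_eq_mul_div, div_le_iff₀ h13]
      refine h11.trans ?_
      have h14 : (1 - ε / 2) * l * (1 - ε / 4) ≤ (1 - ε / 2) * l * (1 - κ * D / ℓ) := by
        refine mul_le_mul_of_nonneg_left (by linarith) ?_
        have : 0 < 1 - ε / 2 := by linarith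
        positivity
      refine le_trans ?_ h14
      have h15 : (1 - ε / 2) * l * (1 - ε / 4) = (1 - ε) * l + ε / 4 * l + ε ^ 2 / 8 * l := by ring
      have h16 : 0 ≤ ε ^ 2 / 8 * l := by positivity
      rw [h15]
      linarith
    · intro j hj
      obtain ⟨i, hi, rfl⟩ := mem_image.1 hj
      rw [mem_Ioc] at hi
      have := ha hi.1
      omega
    · intro j hj
      obtain ⟨i, hi, rfl⟩ := mem_image.1 hj
      rw [mem_Ioc] at hi
      have e1 := ha.monotone hi.2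
      have e2 := hgrow i
      rw [← hN] at e1
      omega
    · rw [card_image_of_injOn hinj, Nat.card_Ioc]
      have h11 : (k : ℝ) ≤ 2 * ((k - k / 2 : ℕ) : ℝ) := by
        have : k ≤ 2 * (k - k / 2) := by omega
        exact_mod_cast this
      linarith
    · refine ENNReal.ofReal_le_ofReal ?_
      have h11 : Real.exp (-((1 - ε / 2) * l)) * (k / 2) = (k : ℝ) ^ (ε / 2) / 2 := by
        rw [← hexpl, ← Real.exp_mul, mul_div_assoc', ← Real.exp_add]
        congr 2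
        ring
      have h12 : 4 * l ≤ (k : ℝ) ^ (ε / 2) := by nlinarith
      rw [h11]
      calc Real.exp (-((k : ℝ) ^ (ε / 2) / 2)) ≤ Real.exp (-(2 * l)) := Real.exp_le_exp.2 (by linarith)
        _ = 1 / (k : ℝ) ^ 2 := by
            rw [Real.exp_neg, one_div, ← hexpl, ← Real.exp_nat_mul]
            norm_num
  have hQ : law κ (Qe M N (N ^ 3))ᶜ ≤ ENNReal.ofReal (1 / (k : ℝ) ^ 2) := by
    have h11 : law κ (Qe M N (N ^ 3))ᶜ ≤ ENNReal.ofReal (1 / (N : ℝ) ^ 2) := by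
      simpa using h2
    refine h11.trans (ENNReal.ofReal_le_ofReal ?_)
    exact one_div_le_one_div_of_le (by positivity) (pow_le_pow_left₀ hk0.le (by exact_mod_cast hkN) 2)
  calc law κ _ ≤ law κ ({ω | ∀ j ∈ (Ioc (k / 2) k).image (fun i => a i - 1),
          Sm M ⌊(1 - ε) / D * (M / (κ * M.totient)) * l * ℓ⌋₊ j ω} ∩ Qe M N (N ^ 3)) + law κ (Qe M N (N ^ 3))ᶜ :=
        measure_union_le _ _
    _ ≤ ENNReal.ofReal (1 / (k : ℝ) ^ 2) + ENNReal.ofReal (1 / (k : ℝ) ^ 2) := add_le_add hL hQ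
    _ = ENNReal.ofReal (2 / (k : ℝ) ^ 2) := by
        rw [← ENNReal.ofReal_add (by positivity) (by positivity)]
        congr 1
        ring

/-- lower bound, sharp -/
theorem lo_max {κ : ℝ} (hκ : 0 < κ) {M : ℕ} (hM : 0 < M) {D : ℝ} (hD : 0 < D) {a : ℕ → ℕ} (ha : StrictMono a)
    (haD : ∀ᶠ k : ℕ in atTop, Real.log (a k) ≤ D * Real.log (a (k / 2))) {ε : ℝ} (hε : 0 < ε) (hε1 : ε < 1) :
    ∀ᵐ ω ∂(law κ), ∀ᶠ k : ℕ in atTop,
      (1 - ε) / D * (M / (κ * M.totient)) * Real.log k * Real.log (a k) ≤ maxGap M ω a k := by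
  have hgrow : ∀ k, k ≤ a k := ha.id_le
  filter_upwards [bc κ (lo_sharp hκ hM hD ha haD hε hε1)] with ω hω
  filter_upwards [hω, eventually_ge_atTop 1] with k hk hk1
  have hQ : ω ∈ Qe M (a k) (a k ^ 3) := by
    by_contra hc
    exact hk (Or.inr hc)
  by_contra hno
  push Not at hno
  apply hk
  refine Or.inl ⟨?_, hQ⟩
  intro j hj
  obtain ⟨i, hi, rfl⟩ := mem_image.1 hj
  rw [mem_Ioc] at hi
  have h1 : 1 ≤ i := by omega
  have h2 : ω ∈ Qe M (a i) (a k ^ 3) := Qe_anti (ha.monotone hi.2) hQ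
  rw [sm_gap (h1.trans (hgrow i)) h2]
  refine Nat.le_floor (le_trans ?_ hno.le)
  have : gap M ω (a i) ≤ maxGap M ω a k := le_sup (f := fun i => gap M ω (a i)) (mem_Icc.2 ⟨h1, hi.2⟩)
  exact_mod_cast this

end Pool.Agent.W2helper70.GI
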