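import Pool.Agent.W2helper70.CG.Asy
import Pool.Agent.W2helper70.CG.Fam

set_option autoImplicit false

/-!
Gaps after elements with given indices: the recursion.
-/

namespace Pool.Agent.W2helper70.GI

open MeasureTheory ProbabilityTheory Finset Filter
open scoped ENNReal
open Pool.Agent.W2helper70.CG

open Classical in
/-- **The step**, for a weight which is at most `u p` if the element with index `i` is `p`. -/
theorem step (κ : ℝ) {M i X L : ℕ} {h : Om → ℝ≥0∞} (hh : Adapt M i h) {v : Om → ℝ≥0∞} {u : ℕ → Om → ℝ≥0∞}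
    (hv : ∀ p ω, ω ∈ At M i p → v ω ≤ u p ω) (hu : ∀ p, DetF (Ioc p (p + L)) (u p)) {θ : ℝ≥0∞}
    (hθ : ∀ p, i ≤ p → p ≤ X → ∫⁻ ω, u p ω ∂(law κ) ≤ θ) :
    ∫⁻ ω, h ω * v ω * (Qe M i X).indicator 1 ω ∂(law κ) ≤
      θ * ∫⁻ ω, h ω * (Qe M i X).indicator 1 ω ∂(law κ) := by
  have hsum : ∀ ω, (Qe M i X).indicator (1 : Om → ℝ≥0∞) ω = ∑ p ∈ range (X + 1), (At M i p).indicator 1 ω := by
    intro ω
    by_cases h1 : ω ∈ Qe M i X
    · obtain ⟨p, hp, hp'⟩ := h1
      rw [Set.indicator_of_mem (show ω ∈ Qe M i X from ⟨p, hp, hp'⟩), sum_eq_single p]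
      · rw [Set.indicator_of_mem hp']
      · intro q _ hq
        exact Set.indicator_of_notMem (fun h2 => hq (at_unique h2 hp')) _
      · intro h2
        exact absurd (mem_range.2 (by omega)) h2
    · rw [Set.indicator_of_notMem h1]
      symm
      refine sum_eq_zero fun p hp => Set.indicator_of_notMem (fun h2 => h1 ⟨p, ?_, h2⟩) _
      have := mem_range.1 hp
      omega
  have hdet : ∀ p, DetF (range (p + 1)) fun ω => h ω * (At M i p).indicator 1 ω := by
    intro p ω ω' hω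
    have hω' : ∀ j ≤ p, ω j = ω' j := fun j hj => hω j (mem_range.2 (by omega))
    show h ω * (At M i p).indicator 1 ω = h ω' * (At M i p).indicator 1 ω'
    by_cases h1 : ω ∈ At M i p
    · rw [hh p ω ω' hω' h1, Set.indicator_of_mem h1, Set.indicator_of_mem (at_congr hω' h1)]
      rfl
    · have h2 : ω' ∉ At M i p := fun h2 => h1 (at_congr (fun j hj => (hω' j hj).symm) h2)
      rw [Set.indicator_of_notMem h1, Set.indicator_of_notMem h2, mul_zero, mul_zero]
  calc ∫⁻ ω, h ω * v ω * (Qe M i X).indicator 1 ω ∂(law κ)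
      ≤ ∫⁻ ω, ∑ p ∈ range (X + 1), (h ω * (At M i p).indicator 1 ω) * u p ω ∂(law κ) := by
        refine lintegral_mono fun ω => ?_
        rw [hsum ω, mul_sum]
        refine sum_le_sum fun p _ => ?_
        by_cases h1 : ω ∈ At M i p
        · rw [Set.indicator_of_mem h1, Pi.one_apply, mul_one, mul_one]
          gcongr
          exact hv p ω h1
        · rw [Set.indicator_of_notMem h1, mul_zero]
          exact zero_le
    _ = ∑ p ∈ range (X + 1), ∫⁻ ω, (h ω * (At M i p).indicator 1 ω) * u p ω ∂(law κ) := by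
        rw [lintegral_finsetSum]
        intro p _
        exact (hdet p).meas.mul (hu p).meas
    _ = ∑ p ∈ range (X + 1), (∫⁻ ω, h ω * (At M i p).indicator 1 ω ∂(law κ)) * ∫⁻ ω, u p ω ∂(law κ) := by
        refine sum_congr rfl fun p _ => ?_
        refine lint_mul κ ?_ (hdet p) (hu p)
        rw [disjoint_left]
        intro j hj hj'
        have := mem_range.1 hj
        have := (mem_Ioc.1 hj').1
        omega
    _ ≤ ∑ p ∈ range (X + 1), (∫⁻ ω, h ω * (At M i p).indicator 1 ω ∂(law κ)) * θ := by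
        refine sum_le_sum fun p hp => ?_
        by_cases h1 : i ≤ p
        · gcongr
          exact hθ p h1 (by have := mem_range.1 hp; omega)
        · have h2 : ∀ ω, h ω * (At M i p).indicator 1 ω = 0 := by
            intro ω
            rw [Set.indicator_of_notMem (fun h3 => h1 (at_le h3)), mul_zero]
          simp only [h2, lintegral_zero, zero_mul, le_refl]
    _ = θ * ∫⁻ ω, h ω * (Qe M i X).indicator 1 ω ∂(law κ) := by
        rw [← sum_mul, mul_comm, ← lintegral_finsetSum _ fun p _ => (hdet p).meas]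
        congr 1
        refine lintegral_congr fun ω => ?_
        rw [hsum ω, mul_sum]

/-- the gap after the element with index `i` is at most `g` -/
def Sm (M g i : ℕ) (ω : Om) : Prop := ∃ p q, ω ∈ At M i p ∧ p < q ∧ q ≤ p + g ∧ El M ω q

theorem next_le {M i p q p' : ℕ} {ω : Om} (hp : ω ∈ At M i p) (hpq : p < q) (hq : El M ω q)
    (hp' : ω ∈ At M (i + 1) p') : p' ≤ q := by
  have h1 : ω ∈ At M (cnt M ω q) q := ⟨hq, rfl⟩
  rcases lt_trichotomy (cnt M ω q) (i + 1) with h | h | h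
  · rcases (Nat.lt_succ_iff.1 h).lt_or_eq with h2 | h2
    · have := at_lt h1 hp h2
      omega
    · rw [h2] at h1
      have := at_unique h1 hp
      omega
  · rw [h] at h1
    exact (at_unique hp' h1).le
  · exact (at_lt hp' h1 h).le

theorem sm_iff {M g i p p' : ℕ} {ω : Om} (hp : ω ∈ At M i p) (hp' : ω ∈ At M (i + 1) p') :
    Sm M g i ω ↔ p' ≤ p + g := by
  constructor
  · rintro ⟨r, q, hr, hrq, hqg, hq⟩
    have := at_unique hr hp
    subst this
    exact (next_le hr hrq hq hp').trans hqg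
  · intro h
    exact ⟨p, p', hp, at_lt hp hp' (Nat.lt_succ_self i), h, hp'.1⟩

theorem adapt_Sm (M g i : ℕ) : Adapt M (i + 1) (Sm M g i) := by
  intro p' ω ω' hω hp'
  obtain ⟨p, hpp, hp⟩ := exists_at_of_le hp' (Nat.le_succ i)
  have h1 : ω' ∈ At M (i + 1) p' := at_congr hω hp'
  have h2 : ω' ∈ At M i p := at_congr (fun j hj => hω j (hj.trans hpp)) hp
  exact propext ((sm_iff hp hp').trans (sm_iff h2 h1).symm)

open Classical in
/-- the indicator function of `Sm` -/
noncomputable def vs (M g i : ℕ) (ω : Om) : ℝ≥0∞ := if Sm M g i ω then 1 else 0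

open Classical in
/-- the indicator function of the event that there is an element in `(p, p + g]` -/
noncomputable def us (M g p : ℕ) (ω : Om) : ℝ≥0∞ := if ∃ q, p < q ∧ q ≤ p + g ∧ El M ω q then 1 else 0

theorem adapt_vs (M g i : ℕ) : Adapt M (i + 1) (vs M g i) := by
  intro p ω ω' hω hp
  unfold vs
  rw [adapt_Sm M g i p ω ω' hω hp]

theorem some_congr {M g p : ℕ} {ω ω' : Om} (h : ∀ i ∈ Ioc p (p + g), ω i = ω' i) :
    (∃ q, p < q ∧ q ≤ p + g ∧ El M ω q) = (∃ q, p < q ∧ q ≤ p + g ∧ El M ω' q) := by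
  apply propext
  constructor
  · rintro ⟨q, h1, h2, h3, h4⟩
    exact ⟨q, h1, h2, h3, by rw [← h q (mem_Ioc.2 ⟨h1, h2⟩)]; exact h4⟩
  · rintro ⟨q, h1, h2, h3, h4⟩
    exact ⟨q, h1, h2, h3, by rw [h q (mem_Ioc.2 ⟨h1, h2⟩)]; exact h4⟩

theorem det_us (M g p : ℕ) : DetF (Ioc p (p + g)) (us M g p) := by
  intro ω ω' h
  unfold us
  rw [some_congr h]

theorem vs_le_us {M g i p : ℕ} {ω : Om} (hp : ω ∈ At M i p) : vs M g i ω ≤ us M g p ω := by
  unfold vs us
  by_cases h : Sm M g i ω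
  · rw [if_pos h]
    obtain ⟨r, q, hr, hrq, hqg, hq⟩ := h
    have := at_unique hr hp
    subst this
    rw [if_pos ⟨q, hrq, hqg, hq⟩]
  · rw [if_neg h]
    exact zero_le

theorem int_us (κ : ℝ) (M g p : ℕ) :
    ∫⁻ ω, us M g p ω ∂(law κ) = law κ {ω | ∃ q, p < q ∧ q ≤ p + g ∧ El M ω q} := by
  have hmeas : MeasurableSet {ω | ∃ q, p < q ∧ q ≤ p + g ∧ El M ω q} := by
    refine DetF.measSet (S := Ioc p (p + g)) fun ω ω' h => ?_
    exact some_congr h
  rw [← lintegral_indicator_one hmeas]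
  refine lintegral_congr fun ω => ?_
  unfold us
  by_cases h : ∃ q, p < q ∧ q ≤ p + g ∧ El M ω q
  · rw [if_pos h, Set.indicator_of_mem (show ω ∈ {ω | ∃ q, p < q ∧ q ≤ p + g ∧ El M ω q} from h)]
    rfl
  · rw [if_neg h, Set.indicator_of_notMem (show ω ∉ {ω | ∃ q, p < q ∧ q ≤ p + g ∧ El M ω q} from h)]

theorem law_some {κ : ℝ} (hκ : 0 ≤ κ) (M : ℕ) {p g : ℕ} {a : ℝ} (ha0 : 0 ≤ a) (ha : a ≤ 1 / 2)
    (h : ∀ j, p < j → j ≤ p + g → rho κ j ≤ a) :
    law κ {ω | ∃ q, p < q ∧ q ≤ p + g ∧ El M ω q} ≤ ENNReal.ofReal (1 - Real.exp (-(2 * a * g))) := by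
  have hmeas : MeasurableSet {ω | ∃ q, p < q ∧ q ≤ p + g ∧ El M ω q} := by
    refine DetF.measSet (S := Ioc p (p + g)) fun ω ω' h => ?_
    exact some_congr h
  have h1 : ENNReal.ofReal (Real.exp (-(2 * a * g))) ≤ law κ {ω | ∃ q, p < q ∧ q ≤ p + g ∧ El M ω q}ᶜ := by
    calc ENNReal.ofReal (Real.exp (-(2 * a * g)))
        ≤ ∏ j ∈ Ioc p (p + g), coin (rho κ j) {false} := by
          have h2 : ∏ j ∈ Ioc p (p + g), coin (rho κ j) {false} =
              ENNReal.ofReal (∏ j ∈ Ioc p (p + g), (1 - rho κ j)) := by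
            rw [ENNReal.ofReal_prod_of_nonneg fun j _ => sub_nonneg.2 (rho_le κ j)]
            refine prod_congr rfl fun j _ => ?_
            rw [coin_false, ENNReal.ofReal_sub _ (rho_nonneg hκ j), ENNReal.ofReal_one]
          rw [h2]
          refine ENNReal.ofReal_le_ofReal ?_
          have h3 : Real.exp (-(2 * a)) ≤ 1 - a := one_sub_ge_exp' ha0 ha
          calc Real.exp (-(2 * a * g)) = ∏ _j ∈ Ioc p (p + g), Real.exp (-(2 * a)) := by
                rw [prod_const, Nat.card_Ioc, Nat.add_sub_cancel_left, ← Real.exp_nat_mul]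
                congr 1
                ring
            _ ≤ ∏ j ∈ Ioc p (p + g), (1 - rho κ j) := by
                refine prod_le_prod (fun j _ => (Real.exp_pos _).le) fun j hj => ?_
                rw [mem_Ioc] at hj
                have := h j hj.1 hj.2
                linarith
      _ = law κ {ω | ∀ j ∈ Ioc p (p + g), ω j = false} := (law_pi κ _ fun _ => false).symm
      _ ≤ _ := by
          refine measure_mono fun ω hω => ?_
          rintro ⟨q, h2, h3, h4⟩
          have h5 := hω q (mem_Ioc.2 ⟨h2, h3⟩)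
          rw [h4.2] at h5
          exact Bool.noConfusion h5
  rw [prob_compl_eq_one_sub hmeas] at h1
  rw [ENNReal.ofReal_sub _ (Real.exp_pos _).le, ENNReal.ofReal_one]
  have h2 : law κ {ω | ∃ q, p < q ∧ q ≤ p + g ∧ El M ω q} ≤ 1 := prob_le_one
  calc law κ {ω | ∃ q, p < q ∧ q ≤ p + g ∧ El M ω q}
      = 1 - (1 - law κ {ω | ∃ q, p < q ∧ q ≤ p + g ∧ El M ω q}) :=
        (ENNReal.sub_sub_cancel ENNReal.one_ne_top h2).symm
    _ ≤ _ := tsub_le_tsub_left h1 1
where
  one_sub_ge_exp' {x : ℝ} (h0 : 0 ≤ x) (h1 : x ≤ 1 / 2) : Real.exp (-(2 * x)) ≤ 1 - x := by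
    have h2 : 0 < 1 - x := by linarith
    have h3 : 1 / (1 - x) ≤ Real.exp (2 * x) := by
      have h4 := Real.add_one_le_exp (2 * x)
      refine le_trans ?_ h4
      rw [div_le_iff₀ h2]
      nlinarith
    rw [Real.exp_neg]
    rw [div_le_iff₀ h2] at h3
    rw [inv_le_iff_one_le_mul₀ (Real.exp_pos _)]
    linarith

/-- **All gaps after the elements with indices in `J` are small.** -/
theorem all_small (κ : ℝ) {M g i X : ℕ} {θ : ℝ≥0∞}
    (hθ : ∀ p, i ≤ p → p ≤ X → law κ {ω | ∃ q, p < q ∧ q ≤ p + g ∧ El M ω q} ≤ θ) (J : Finset ℕ)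
    (hJ : ∀ j ∈ J, i ≤ j) :
    ∀ b, (∀ j ∈ J, j ≤ b) →
    ∫⁻ ω, (∏ j ∈ J, vs M g j ω) * (Qe M b X).indicator 1 ω ∂(law κ) ≤ θ ^ J.card := by
  have mono1 : ∀ {a b : ℕ}, a ≤ b → ∀ ω, (Qe M b X).indicator (1 : Om → ℝ≥0∞) ω ≤ (Qe M a X).indicator 1 ω := by
    intro a b hab ω
    exact Set.indicator_le_indicator_of_subset (Qe_anti hab) (fun _ => zero_le) ω
  induction J using Finset.induction_on_max with
  | empty =>
    intro b _
    simp only [prod_empty, one_mul, card_empty, pow_zero]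
    calc ∫⁻ ω, (Qe M b X).indicator 1 ω ∂(law κ) ≤ ∫⁻ _ω, 1 ∂(law κ) := by
          refine lintegral_mono fun ω => ?_
          exact Set.indicator_le_self' (fun _ _ => zero_le) ω
      _ = 1 := by simp
  | insert a s has ih =>
    intro b hsb
    have hnot : a ∉ s := fun h => lt_irrefl _ (has a h)
    have ha1 : i ≤ a := hJ a (mem_insert_self _ _)
    have ih' := ih (fun j hj => hJ j (mem_insert_of_mem hj)) a (fun j hj => (has j hj).le)
    have had : Adapt M a fun ω => ∏ j ∈ s, vs M g j ω := by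
      intro p ω ω' hω hp
      exact prod_congr rfl fun j hj => (adapt_vs M g j).mono (has j hj) p ω ω' hω hp
    have hst := step κ (X := X) (L := g) had (v := vs M g a) (u := us M g) (fun p ω hp => vs_le_us hp)
      (fun p => det_us M g p) (θ := θ) (fun p hp hpX => by rw [int_us]; exact hθ p (ha1.trans hp) hpX)
    calc ∫⁻ ω, (∏ j ∈ insert a s, vs M g j ω) * (Qe M b X).indicator 1 ω ∂(law κ)
        ≤ ∫⁻ ω, (∏ j ∈ s, vs M g j ω) * vs M g a ω * (Qe M a X).indicator 1 ω ∂(law κ) := by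
          refine lintegral_mono fun ω => ?_
          rw [prod_insert hnot, mul_comm (vs M g a ω)]
          exact mul_le_mul_right (mono1 (hsb a (mem_insert_self _ _)) ω) _
      _ ≤ θ * ∫⁻ ω, (∏ j ∈ s, vs M g j ω) * (Qe M a X).indicator 1 ω ∂(law κ) := hst
      _ ≤ θ * θ ^ s.card := by gcongr
      _ = θ ^ (insert a s).card := by rw [card_insert_of_notMem hnot, pow_succ]; ring

theorem all_small_law (κ : ℝ) {M g i X b : ℕ} {θ : ℝ≥0∞}
    (hθ : ∀ p, i ≤ p → p ≤ X → law κ {ω | ∃ q, p < q ∧ q ≤ p + g ∧ El M ω q} ≤ θ) (J : Finset ℕ)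
    (hJ : ∀ j ∈ J, i ≤ j) (hb : ∀ j ∈ J, j + 1 ≤ b) :
    law κ ({ω | ∀ j ∈ J, Sm M g j ω} ∩ Qe M b X) ≤ θ ^ J.card := by
  have had : Adapt M b fun ω => ω ∈ {ω | ∀ j ∈ J, Sm M g j ω} := by
    intro p ω ω' hω hp
    apply propext
    have h1 : ∀ j ∈ J, Sm M g j ω = Sm M g j ω' := fun j hj =>
      (adapt_Sm M g j).mono (hb j hj) p ω ω' hω hp
    constructor
    · intro h j hj
      rw [← h1 j hj]; exact h j hj
    · intro h j hj
      rw [h1 j hj]; exact h j hj
  rw [← lintegral_indicator_one (meas_adapt had)]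
  refine le_trans (lintegral_mono fun ω => ?_) (all_small κ hθ J hJ b fun j hj => by have := hb j hj; omega)
  by_cases h1 : ω ∈ {ω | ∀ j ∈ J, Sm M g j ω} ∩ Qe M b X
  · rw [Set.indicator_of_mem h1, Set.indicator_of_mem h1.2]
    have h2 : ∏ j ∈ J, vs M g j ω = 1 := by
      refine prod_eq_one fun j hj => ?_
      unfold vs
      exact if_pos (h1.1 j hj)
    rw [h2, one_mul]
  · rw [Set.indicator_of_notMem h1]
    exact zero_le

/-- **One gap is large.** -/
theorem one_large {κ : ℝ} (hκ : 0 ≤ κ) {M : ℕ} (hM : 0 < M) {g i X : ℕ} (hg : 0 < g) {a : ℝ} (ha : 0 ≤ a)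
    (h : ∀ j, 2 ≤ j → j ≤ X + g → a ≤ rho κ j) :
    law κ ({ω | ¬ Sm M g i ω} ∩ Qe M i X) ≤ ENNReal.ofReal (Real.exp (-(a * ((g - 1) / M : ℕ)))) := by
  classical
  set u : ℕ → Om → ℝ≥0∞ := fun p ω => if ∀ j, p + 1 < j → j ≤ p + 1 + (g - 1) → ¬ El M ω j then 1 else 0 with hu
  have hcongr : ∀ (p : ℕ) (ω ω' : Om), (∀ k ∈ Ioc p (p + g), ω k = ω' k) →
      (∀ j, p + 1 < j → j ≤ p + 1 + (g - 1) → ¬ El M ω j) → ∀ j, p + 1 < j → j ≤ p + 1 + (g - 1) → ¬ El M ω' j := by
    intro p ω ω' hω h1 j hj hj' hE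
    refine h1 j hj hj' ⟨hE.1, ?_⟩
    rw [hω j (mem_Ioc.2 ⟨by omega, by omega⟩)]
    exact hE.2
  have hdet : ∀ p, DetF (Ioc p (p + g)) (u p) := by
    intro p ω ω' hω
    simp only [hu]
    by_cases h1 : ∀ j, p + 1 < j → j ≤ p + 1 + (g - 1) → ¬ El M ω j
    · rw [if_pos h1, if_pos (hcongr p ω ω' hω h1)]
    · rw [if_neg h1, if_neg fun h2 => h1 (hcongr p ω' ω (fun k hk => (hω k hk).symm) h2)]
  have hint : ∀ p, ∫⁻ ω, u p ω ∂(law κ) = law κ {ω | ∀ j, p + 1 < j → j ≤ p + 1 + (g - 1) → ¬ El M ω j} := by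
    intro p
    have hmeas : MeasurableSet {ω | ∀ j, p + 1 < j → j ≤ p + 1 + (g - 1) → ¬ El M ω j} := by
      refine DetF.measSet (S := Ioc p (p + g)) fun ω ω' hω => propext ⟨hcongr p ω ω' hω,
        hcongr p ω' ω fun k hk => (hω k hk).symm⟩
    rw [← lintegral_indicator_one hmeas]
    refine lintegral_congr fun ω => ?_
    simp only [hu]
    by_cases h1 : ∀ j, p + 1 < j → j ≤ p + 1 + (g - 1) → ¬ El M ω j
    · rw [if_pos h1, Set.indicator_of_mem
        (show ω ∈ {ω | ∀ j, p + 1 < j → j ≤ p + 1 + (g - 1) → ¬ El M ω j} from h1)]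
      rfl
    · rw [if_neg h1, Set.indicator_of_notMem
        (show ω ∉ {ω | ∀ j, p + 1 < j → j ≤ p + 1 + (g - 1) → ¬ El M ω j} from h1)]
  have hv : ∀ p ω, ω ∈ At M i p → (if ¬ Sm M g i ω then (1 : ℝ≥0∞) else 0) ≤ u p ω := by
    intro p ω hp
    by_cases h1 : Sm M g i ω
    · rw [if_neg (not_not.2 h1)]
      exact zero_le
    · rw [if_pos h1]
      simp only [hu]
      rw [if_pos]
      intro j hj hj' hE
      exact h1 ⟨p, j, hp, by omega, by omega, hE⟩
  have hst := step κ (M := M) (i := i) (X := X) (L := g) (h := fun _ => 1) (fun _ _ _ _ _ => rfl)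
    (v := fun ω => if ¬ Sm M g i ω then (1 : ℝ≥0∞) else 0) (u := u) hv hdet
    (θ := ENNReal.ofReal (Real.exp (-(a * ((g - 1) / M : ℕ))))) (fun p hp hpX => by
      rw [hint p]
      exact law_empty hκ hM ha fun j hj hj' => h j (by omega) (by omega))
  have key : ∀ ω ω' : Om, (∀ j ∈ range (X + g + 1), ω j = ω' j) →
      ω ∈ {ω | ¬ Sm M g i ω} ∩ Qe M i X → ω' ∈ {ω | ¬ Sm M g i ω} ∩ Qe M i X := by
    rintro ω ω' hω ⟨h1, p, hpX, hp⟩
    have hω' : ∀ j ≤ X + g, ω j = ω' j := fun j hj => hω j (mem_range.2 (by omega))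
    have hp' : ω' ∈ At M i p := at_congr (fun j hj => hω' j (by omega)) hp
    refine ⟨?_, p, hpX, hp'⟩
    rintro ⟨r, q, hr, hrq, hqg, hq⟩
    have := at_unique hr hp'
    subst this
    refine h1 ⟨r, q, hp, hrq, hqg, hq.1, ?_⟩
    rw [hω' q (by omega)]
    exact hq.2
  have hmeasS : MeasurableSet ({ω | ¬ Sm M g i ω} ∩ Qe M i X) := by
    refine DetF.measSet (S := range (X + g + 1)) fun ω ω' hω => propext ⟨key ω ω' hω,
      key ω' ω fun k hk => (hω k hk).symm⟩
  calc law κ ({ω | ¬ Sm M g i ω} ∩ Qe M i X)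
      ≤ ∫⁻ ω, (1 : ℝ≥0∞) * (if ¬ Sm M g i ω then (1 : ℝ≥0∞) else 0) * (Qe M i X).indicator 1 ω ∂(law κ) := by
        rw [← lintegral_indicator_one hmeasS]
        refine lintegral_mono fun ω => ?_
        by_cases h1 : ω ∈ {ω | ¬ Sm M g i ω} ∩ Qe M i X
        · rw [Set.indicator_of_mem h1, Set.indicator_of_mem h1.2, if_pos (show ¬ Sm M g i ω from h1.1)]
          simp
        · rw [Set.indicator_of_notMem h1]
          exact zero_le
    _ ≤ _ := hst
    _ ≤ ENNReal.ofReal (Real.exp (-(a * ((g - 1) / M : ℕ)))) * 1 := by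
        gcongr
        calc ∫⁻ ω, (1 : ℝ≥0∞) * (Qe M i X).indicator 1 ω ∂(law κ) ≤ ∫⁻ _ω, 1 ∂(law κ) := by
              refine lintegral_mono fun ω => ?_
              rw [one_mul]
              exact Set.indicator_le_self' (fun _ _ => zero_le) ω
          _ = 1 := by simp
    _ = _ := mul_one _

end Pool.Agent.W2helper70.GI
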