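import Pool.Agent.W2helper70.GI.Expo

set_option autoImplicit false

/-!
Empty windows, with the sharp constants.
-/

namespace Pool.Agent.W2helper70.GI

open MeasureTheory ProbabilityTheory Finset Filter
open scoped ENNReal Topology
open Pool.Agent.W2helper70.CG

/-- the numbers in `(p, p + g]` which are coprime to `M` -/
def Cw (M p g : ℕ) : Finset ℕ := (Ioc p (p + g)).filter fun j => j.Coprime M

theorem mem_Cw {M p g j : ℕ} : j ∈ Cw M p g ↔ (p < j ∧ j ≤ p + g) ∧ j.Coprime M := by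
  unfold Cw
  rw [mem_filter, mem_Ioc]

theorem Cw_eq (M p g : ℕ) : Cw M p g = (Ico (p + 1) (p + 1 + g)).filter fun j => M.Coprime j := by
  ext j
  rw [mem_Cw, mem_filter, mem_Ico, Nat.coprime_comm]
  refine and_congr_left fun _ => ?_
  omega

theorem Cw_le {M : ℕ} (hM : 0 < M) (p g : ℕ) : (Cw M p g).card ≤ M.totient * (g / M + 1) := by
  rw [Cw_eq]
  exact Nat.Ico_filter_coprime_le (p + 1) g hM.ne'

theorem Cw_period (M p q : ℕ) : (Cw M p (M * q)).card = M.totient * q := by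
  induction q with
  | zero => simp [Cw]
  | succ q ih =>
    have h1 : Cw M p (M * (q + 1)) = Cw M p (M * q) ∪ Cw M (p + M * q) M := by
      ext j
      rw [mem_union, mem_Cw, mem_Cw, mem_Cw]
      constructor
      · rintro ⟨⟨h1, h2⟩, h3⟩
        rcases le_or_gt j (p + M * q) with h | h
        · exact Or.inl ⟨⟨h1, h⟩, h3⟩
        · exact Or.inr ⟨⟨h, by rw [Nat.mul_add, mul_one] at h2; omega⟩, h3⟩
      · rintro (⟨⟨h1, h2⟩, h3⟩ | ⟨⟨h1, h2⟩, h3⟩)
        · exact ⟨⟨h1, by rw [Nat.mul_add, mul_one]; omega⟩, h3⟩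
        · exact ⟨⟨by omega, by rw [Nat.mul_add, mul_one]; omega⟩, h3⟩
    rw [h1, card_union_of_disjoint, ih, Cw_eq M (p + M * q) M, Nat.filter_coprime_Ico_eq_totient]
    · ring
    · rw [disjoint_left]
      intro j hj hj'
      have := (mem_Cw.1 hj).1.2
      have := (mem_Cw.1 hj').1.1
      omega

theorem le_Cw (M p g : ℕ) : M.totient * (g / M) ≤ (Cw M p g).card := by
  rw [← Cw_period M p (g / M)]
  refine card_le_card fun j hj => ?_
  rw [mem_Cw] at hj ⊢
  have := Nat.mul_div_le g M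
  exact ⟨⟨hj.1.1, by omega⟩, hj.2⟩

theorem law_false {κ : ℝ} (hκ : 0 ≤ κ) (S : Finset ℕ) :
    law κ {ω | ∀ j ∈ S, ω j = false} = ENNReal.ofReal (∏ j ∈ S, (1 - rho κ j)) := by
  rw [law_pi κ S fun _ => false, ENNReal.ofReal_prod_of_nonneg fun j _ => sub_nonneg.2 (rho_le κ j)]
  refine prod_congr rfl fun j _ => ?_
  rw [coin_false, ENNReal.ofReal_sub _ (rho_nonneg hκ j), ENNReal.ofReal_one]

/-- an empty window: upper bound -/
theorem empty_le {κ : ℝ} (hκ : 0 ≤ κ) {M p g : ℕ} {a y : ℝ} (h : ∀ j, p < j → j ≤ p + g → a ≤ rho κ j)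
    (ha : 0 ≤ a) (hy : y ≤ a * (M.totient * (g / M : ℕ))) :
    law κ {ω | ∀ j, p < j → j ≤ p + g → ¬ El M ω j} ≤ ENNReal.ofReal (Real.exp (-y)) := by
  calc law κ {ω | ∀ j, p < j → j ≤ p + g → ¬ El M ω j}
      ≤ law κ {ω | ∀ j ∈ Cw M p g, ω j = false} := by
        refine measure_mono fun ω hω j hj => ?_
        rw [mem_Cw] at hj
        have h3 := hω j hj.1.1 hj.1.2
        by_contra h4
        exact h3 ⟨hj.2, by simpa using h4⟩
    _ = ENNReal.ofReal (∏ j ∈ Cw M p g, (1 - rho κ j)) := law_false hκ _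
    _ ≤ ENNReal.ofReal (Real.exp (-y)) := by
        refine ENNReal.ofReal_le_ofReal ?_
        calc ∏ j ∈ Cw M p g, (1 - rho κ j) ≤ ∏ _j ∈ Cw M p g, Real.exp (-a) := by
              refine prod_le_prod (fun j _ => sub_nonneg.2 (rho_le κ j)) fun j hj => ?_
              rw [mem_Cw] at hj
              have h1 := h j hj.1.1 hj.1.2
              have h2 := Real.add_one_le_exp (-a)
              linarith
          _ = Real.exp (-(a * (Cw M p g).card)) := by
              rw [prod_const, ← Real.exp_nat_mul]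
              congr 1
              ring
          _ ≤ _ := by
              refine Real.exp_le_exp.2 (neg_le_neg (hy.trans ?_))
              refine mul_le_mul_of_nonneg_left ?_ ha
              exact_mod_cast le_Cw M p g

theorem one_sub_ge {x : ℝ} (h1 : x < 1) : Real.exp (-(x / (1 - x))) ≤ 1 - x := by
  have h2 : 0 < 1 - x := by linarith
  have h3 : 1 / (1 - x) ≤ Real.exp (x / (1 - x)) := by
    have h4 := Real.add_one_le_exp (x / (1 - x))
    refine le_trans (le_of_eq ?_) h4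
    field_simp
    ring
  rw [Real.exp_neg, inv_le_iff_one_le_mul₀ (Real.exp_pos _)]
  rw [div_le_iff₀ h2] at h3
  linarith

/-- a nonempty window: upper bound -/
theorem some_le {κ : ℝ} (hκ : 0 ≤ κ) {M : ℕ} (hM : 0 < M) {p g : ℕ} {a y : ℝ} (ha0 : 0 ≤ a) (ha : a < 1)
    (h : ∀ j, p < j → j ≤ p + g → rho κ j ≤ a) (hy : a / (1 - a) * (M.totient * (g / M + 1)) ≤ y) :
    law κ {ω | ∃ q, p < q ∧ q ≤ p + g ∧ El M ω q} ≤ ENNReal.ofReal (1 - Real.exp (-y)) := by
  have hmeas : MeasurableSet {ω | ∃ q, p < q ∧ q ≤ p + g ∧ El M ω q} := by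
    refine DetF.measSet (S := Ioc p (p + g)) fun ω ω' h => ?_
    exact some_congr h
  have ha1 : 0 < 1 - a := by linarith
  have h1 : ENNReal.ofReal (Real.exp (-y)) ≤ law κ {ω | ∃ q, p < q ∧ q ≤ p + g ∧ El M ω q}ᶜ := by
    calc ENNReal.ofReal (Real.exp (-y))
        ≤ ENNReal.ofReal (∏ j ∈ Cw M p g, (1 - rho κ j)) := by
          refine ENNReal.ofReal_le_ofReal ?_
          calc Real.exp (-y) ≤ Real.exp (-(a / (1 - a) * (Cw M p g).card)) := by
                refine Real.exp_le_exp.2 (neg_le_neg (le_trans ?_ hy))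
                refine mul_le_mul_of_nonneg_left ?_ (by positivity)
                have h2 : ((Cw M p g).card : ℝ) ≤ M.totient * ((g / M : ℕ) + 1) := by
                  exact_mod_cast Cw_le hM p g
                refine h2.trans (mul_le_mul_of_nonneg_left ?_ (Nat.cast_nonneg _))
                have := Nat.cast_div_le (α := ℝ) (m := g) (n := M)
                linarith
            _ = ∏ _j ∈ Cw M p g, Real.exp (-(a / (1 - a))) := by
                rw [prod_const, ← Real.exp_nat_mul]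
                congr 1
                ring
            _ ≤ ∏ j ∈ Cw M p g, (1 - rho κ j) := by
                refine prod_le_prod (fun j _ => (Real.exp_pos _).le) fun j hj => ?_
                rw [mem_Cw] at hj
                have h2 := h j hj.1.1 hj.1.2
                have h3 := one_sub_ge ha
                linarith
      _ = law κ {ω | ∀ j ∈ Cw M p g, ω j = false} := (law_false hκ _).symm
      _ ≤ _ := by
          refine measure_mono fun ω hω => ?_
          rintro ⟨q, h2, h3, h4⟩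
          have h5 := hω q (mem_Cw.2 ⟨⟨h2, h3⟩, h4.1⟩)
          rw [h4.2] at h5
          exact Bool.noConfusion h5
  rw [prob_compl_eq_one_sub hmeas] at h1
  rw [ENNReal.ofReal_sub _ (Real.exp_pos _).le, ENNReal.ofReal_one]
  have h2 : law κ {ω | ∃ q, p < q ∧ q ≤ p + g ∧ El M ω q} ≤ 1 := prob_le_one
  calc law κ {ω | ∃ q, p < q ∧ q ≤ p + g ∧ El M ω q}
      = 1 - (1 - law κ {ω | ∃ q, p < q ∧ q ≤ p + g ∧ El M ω q}) :=
        (ENNReal.sub_sub_cancel ENNReal.one_ne_top h2).symm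
    _ ≤ _ := tsub_le_tsub_left h1 1

/-- large gaps are missing among the indices in `J` -/
theorem low_core' {κ : ℝ} (hκ : 0 ≤ κ) {M : ℕ} (hM : 0 < M) {g i X b : ℕ} {a y : ℝ} (ha0 : 0 ≤ a) (ha : a < 1)
    (h : ∀ j, i < j → rho κ j ≤ a) (hy : a / (1 - a) * (M.totient * (g / M + 1)) ≤ y) (J : Finset ℕ)
    (hJ : ∀ j ∈ J, i ≤ j) (hb : ∀ j ∈ J, j + 1 ≤ b) {N : ℝ} (hN : N ≤ J.card) :
    law κ ({ω | ∀ j ∈ J, Sm M g j ω} ∩ Qe M b X) ≤ ENNReal.ofReal (Real.exp (-(Real.exp (-y) * N))) := by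
  have hy0 : 0 ≤ y := by
    refine le_trans ?_ hy
    have : 0 < 1 - a := by linarith
    positivity
  have h1 := all_small_law κ (M := M) (g := g) (i := i) (X := X) (b := b)
    (θ := ENNReal.ofReal (1 - Real.exp (-y))) (fun p hp _ => some_le hκ hM ha0 ha
      (fun j hj _ => h j (by omega)) hy) J hJ hb
  refine h1.trans ?_
  have h2 : 0 ≤ 1 - Real.exp (-y) := by
    rw [sub_nonneg, Real.exp_le_one_iff]
    linarith
  rw [← ENNReal.ofReal_pow h2]
  refine ENNReal.ofReal_le_ofReal ?_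
  calc (1 - Real.exp (-y)) ^ J.card ≤ Real.exp (-Real.exp (-y)) ^ J.card := by
        refine pow_le_pow_left₀ h2 ?_ _
        have h3 := Real.add_one_le_exp (-Real.exp (-y))
        linarith
    _ = Real.exp (-(Real.exp (-y) * J.card)) := by
        rw [← Real.exp_nat_mul]; congr 1; ring
    _ ≤ _ := by
        refine Real.exp_le_exp.2 (neg_le_neg ?_)
        exact mul_le_mul_of_nonneg_left hN (Real.exp_pos _).le

open Classical in
/-- one gap is large -/
theorem one_large' (κ : ℝ) {M g i X : ℕ} {θ : ℝ≥0∞}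
    (hθ : ∀ p, i ≤ p → p ≤ X → law κ {ω | ∀ j, p < j → j ≤ p + g → ¬ El M ω j} ≤ θ) :
    law κ ({ω | ¬ Sm M g i ω} ∩ Qe M i X) ≤ θ := by
  set u : ℕ → Om → ℝ≥0∞ := fun p ω => if ∀ j, p < j → j ≤ p + g → ¬ El M ω j then 1 else 0 with hu
  have hcongr : ∀ (p : ℕ) (ω ω' : Om), (∀ k ∈ Ioc p (p + g), ω k = ω' k) →
      (∀ j, p < j → j ≤ p + g → ¬ El M ω j) → ∀ j, p < j → j ≤ p + g → ¬ El M ω' j := by
    intro p ω ω' hω h1 j hj hj' hE
    refine h1 j hj hj' ⟨hE.1, ?_⟩
    rw [hω j (mem_Ioc.2 ⟨by omega, by omega⟩)]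
    exact hE.2
  have hdet : ∀ p, DetF (Ioc p (p + g)) (u p) := by
    intro p ω ω' hω
    simp only [hu]
    by_cases h1 : ∀ j, p < j → j ≤ p + g → ¬ El M ω j
    · rw [if_pos h1, if_pos (hcongr p ω ω' hω h1)]
    · rw [if_neg h1, if_neg fun h2 => h1 (hcongr p ω' ω (fun k hk => (hω k hk).symm) h2)]
  have hint : ∀ p, ∫⁻ ω, u p ω ∂(law κ) = law κ {ω | ∀ j, p < j → j ≤ p + g → ¬ El M ω j} := by
    intro p
    have hmeas : MeasurableSet {ω | ∀ j, p < j → j ≤ p + g → ¬ El M ω j} := by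
      refine DetF.measSet (S := Ioc p (p + g)) fun ω ω' hω => propext ⟨hcongr p ω ω' hω,
        hcongr p ω' ω fun k hk => (hω k hk).symm⟩
    rw [← lintegral_indicator_one hmeas]
    refine lintegral_congr fun ω => ?_
    simp only [hu]
    by_cases h1 : ∀ j, p < j → j ≤ p + g → ¬ El M ω j
    · rw [if_pos h1, Set.indicator_of_mem
        (show ω ∈ {ω | ∀ j, p < j → j ≤ p + g → ¬ El M ω j} from h1)]
      rfl
    · rw [if_neg h1, Set.indicator_of_notMem
        (show ω ∉ {ω | ∀ j, p < j → j ≤ p + g → ¬ El M ω j} from h1)]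
  have hv : ∀ p ω, ω ∈ At M i p → (if ¬ Sm M g i ω then (1 : ℝ≥0∞) else 0) ≤ u p ω := by
    intro p ω hp
    by_cases h1 : Sm M g i ω
    · rw [if_neg (not_not.2 h1)]
      exact zero_le
    · rw [if_pos h1]
      simp only [hu]
      rw [if_pos]
      intro j hj hj' hE
      exact h1 ⟨p, j, hp, hj, hj', hE⟩
  have hst := step κ (M := M) (i := i) (X := X) (L := g) (h := fun _ => 1) (fun _ _ _ _ _ => rfl)
    (v := fun ω => if ¬ Sm M g i ω then (1 : ℝ≥0∞) else 0) (u := u) hv hdet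
    (θ := θ) (fun p hp hpX => by
      rw [hint p]
      exact hθ p hp hpX)
  have key : ∀ ω ω' : Om, (∀ j ∈ range (X + g + 1), ω j = ω' j) →
      ω ∈ {ω | ¬ Sm M g i ω} ∩ Qe M i X → ω' ∈ {ω | ¬ Sm M g i ω} ∩ Qe M i X := by
    rintro ω ω' hω ⟨h1, p, hpX, hp⟩
    have hω' : ∀ j ≤ X + g, ω j = ω' j := fun j hj => hω j (mem_range.2 (by omega))
    have hp' : ω' ∈ At M i p := at_congr (fun j hj => hω' j (by omega)) hp
    refine ⟨?_, p, hpX, hp'⟩
    rintro ⟨r, q, hr, hrq, hqg, hq⟩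
    have := at_unique hr hp'
    subst this
    refine h1 ⟨r, q, hp, hrq, hqg, hq.1, ?_⟩
    rw [hω' q (by omega)]
    exact hq.2
  have hmeasS : MeasurableSet ({ω | ¬ Sm M g i ω} ∩ Qe M i X) := by
    refine DetF.measSet (S := range (X + g + 1)) fun ω ω' hω => propext ⟨key ω ω' hω,
      key ω' ω fun k hk => (hω k hk).symm⟩
  calc law κ ({ω | ¬ Sm M g i ω} ∩ Qe M i X)
      ≤ ∫⁻ ω, (1 : ℝ≥0∞) * (if ¬ Sm M g i ω then (1 : ℝ≥0∞) else 0) * (Qe M i X).indicator 1 ω ∂(law κ) := by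
        rw [← lintegral_indicator_one hmeasS]
        refine lintegral_mono fun ω => ?_
        by_cases h1 : ω ∈ {ω | ¬ Sm M g i ω} ∩ Qe M i X
        · rw [Set.indicator_of_mem h1, Set.indicator_of_mem h1.2, if_pos (show ¬ Sm M g i ω from h1.1)]
          simp
        · rw [Set.indicator_of_notMem h1]
          exact zero_le
    _ ≤ _ := hst
    _ ≤ θ * 1 := by
        gcongr
        calc ∫⁻ ω, (1 : ℝ≥0∞) * (Qe M i X).indicator 1 ω ∂(law κ) ≤ ∫⁻ _ω, 1 ∂(law κ) := by
              refine lintegral_mono fun ω => ?_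
              rw [one_mul]
              exact Set.indicator_le_self' (fun _ _ => zero_le) ω
          _ = 1 := by simp
    _ = _ := mul_one _

end Pool.Agent.W2helper70.GI
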